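import Pool.Agent.Lib.SF.Props

/-!
# Row BSQ (helper71)
-/

set_option autoImplicit false

namespace Pool.Agent.MP_ec946a.SF

open Finset Pool.Agent.MP_ec946a.LR Pool.Agent.MP_ec946a.SE

namespace BSQ71

variable {S : Type} [Fintype S] [DecidableEq S] {d : ℕ}

theorem fc_det (f' : (Fin d → S → ZMod 2) → Fin d → ZMod 2) (Y : (Fin d → S → ZMod 2) → Prop)
    (c : Fin d → ZMod 2) (z : Fin d → S → ZMod 2) :
    Fc (det f' Y) c z = ind (Y z) * sg (dt c (f' z)) := by
  unfold Fc det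
  rw [sum_eq_single (f' z)]
  · congr 1
    by_cases h : Y z
    · rw [ind_true h, ind_true ⟨h, rfl⟩]
    · rw [ind_false h, ind_false fun h1 => h h1.1]
  · intro s _ hs
    rw [ind_false fun h1 => hs h1.2, zero_mul]
  · intro h
    exact absurd (mem_univ _) h

theorem ind_eq (f' : (Fin d → S → ZMod 2) → Fin d → ZMod 2) (Y : (Fin d → S → ZMod 2) → Prop)
    (s : Fin d → ZMod 2) (z : Fin d → S → ZMod 2) :
    ind (Y z ∧ f' z = s) = avg fun c => Fc (det f' Y) c z * sg (dt c s) := by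
  simp_rw [fc_det]
  have h1 : ∀ c : Fin d → ZMod 2, ind (Y z) * sg (dt c (f' z)) * sg (dt c s) =
      ind (Y z) * sg (dt (f' z + s) c) := by
    intro c
    rw [dt_comm (f' z + s) c, dt_add_right, sg_add, mul_assoc]
  simp_rw [h1]
  rw [avg_mul_left, avg_sg_dt]
  by_cases h : Y z
  · rw [ind_true h, one_mul]
    by_cases h2 : f' z = s
    · rw [ind_true ⟨h, h2⟩, if_pos]
      rw [h2, v2_self]
    · rw [ind_false fun h3 => h2 h3.2, if_neg]
      intro h3
      apply h2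
      funext i
      exact z2_eq.1 (congrFun h3 i)
  · rw [ind_false h, ind_false fun h3 => h h3.1, zero_mul]

theorem dt_drl (c ε : Fin d → ZMod 2) (a : Fin (d + 1) → ZMod 2) :
    dt c (drl ε a) = dt c (fun i => a i.succ) + a 0 * dt c ε := by
  unfold dt drl
  rw [mul_sum, ← sum_add_distrib]
  exact sum_congr rfl fun i _ => by ring

theorem ind_sq' (p : Prop) : ind p ^ 2 = ind p := by
  by_cases h : p
  · rw [ind_true h]; norm_num
  · rw [ind_false h]; norm_num

/-- the two squares -/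
noncomputable def Q2 (Φ : (Fin d → S → ZMod 2) → ℝ) (c : Fin d → ZMod 2)
    (w : (Fin d → S → ZMod 2) × (S → ZMod 2)) : ℝ :=
  (avg fun ε => Φ (w.1 + tn ε w.2)) ^ 2 +
    (avg fun ε => sg (dt c ε) * Φ (w.1 + tn ε w.2)) ^ 2

theorem Q2_nonneg (Φ : (Fin d → S → ZMod 2) → ℝ) (c : Fin d → ZMod 2)
    (w : (Fin d → S → ZMod 2) × (S → ZMod 2)) : 0 ≤ Q2 Φ c w :=
  add_nonneg (sq_nonneg _) (sq_nonneg _)

/-- the bound for one `g` -/
theorem one (f' : (Fin d → S → ZMod 2) → Fin d → ZMod 2) (Y : (Fin d → S → ZMod 2) → Prop)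
    (a : Fin (d + 1) → ZMod 2) (g : Fin (d + 1) → S → ZMod 2) :
    (pr fun ε => Y (drp ε g) ∧ f' (drp ε g) = drl ε a) ^ 2 ≤
      avg fun c => if c = 0 then 1 else Q2 (Fc (det f' Y) c) c (fun i => g i.succ, g 0) := by
  have h1 : (pr fun ε => Y (drp ε g) ∧ f' (drp ε g) = drl ε a) =
      avg fun c : Fin d → ZMod 2 => sg (dt c (fun i => a i.succ)) *
        avg fun ε => sg (a 0 * dt c ε) * Fc (det f' Y) c (drp ε g) := by
    unfold pr
    simp_rw [ind_eq]
    rw [avg_comm]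
    congr 1
    funext c
    rw [← avg_mul_left]
    congr 1
    funext ε
    rw [dt_drl, sg_add]
    ring
  rw [h1]
  refine (avg_sq_le _).trans (avg_mono fun c => ?_)
  rw [mul_pow, sg_sq, one_mul]
  split_ifs with hc
  · subst hc
    have h2 : |avg fun ε : Fin d → ZMod 2 => sg (a 0 * dt 0 ε) * Fc (det f' Y) 0 (drp ε g)| ≤ 1 := by
      refine (abs_avg_le _).trans (avg_le_const zero_le_one fun ε => ?_)
      rw [abs_mul, abs_sg, one_mul, fc_det, abs_mul, abs_sg, mul_one,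
        abs_of_nonneg (ind_nonneg _)]
      exact ind_le_one _
    exact (sq_le_one_iff_abs_le_one _).2 h2
  · unfold Q2
    rcases z2_cases (a 0) with h0 | h0
    · rw [h0]
      simp only [zero_mul, sg_zero, one_mul]
      exact le_add_of_nonneg_right (sq_nonneg _)
    · rw [h0]
      simp only [one_mul]
      exact le_add_of_nonneg_left (sq_nonneg _)

end BSQ71

open BSQ71 in
theorem bsq (h : SECOND) : BSQ := by
  intro S _ _ d f' F Y
  refine (avg_mono fun g => one f' Y (F g) g).trans ?_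
  rw [avg_comm]
  have hcard : (Fintype.card (Fin d → ZMod 2) : ℝ) = 2 ^ d := by
    rw [Fintype.card_fun, ZMod.card, Fintype.card_fin]; push_cast; rfl
  have hpos : (0 : ℝ) < 2 ^ d := by positivity
  -- each `c`
  have h1 : ∀ c : Fin d → ZMod 2, c ≠ 0 →
      (avg fun g : Fin (d + 1) → S → ZMod 2 => if c = 0 then (1 : ℝ) else
        Q2 (Fc (det f' Y) c) c (fun i => g i.succ, g 0)) ≤
      (pr Y + ∑ h, ac (det f' Y) c h ^ 2) / 2 := by
    intro c hc
    simp only [if_neg hc]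
    have e1 : (avg fun g : Fin (d + 1) → S → ZMod 2 =>
        Q2 (Fc (det f' Y) c) c (fun i => g i.succ, g 0)) = avg (Q2 (Fc (det f' Y) c) c) :=
      avg_equiv ((Fin.consEquiv fun _ : Fin (d + 1) => S → ZMod 2).symm.trans
        (Equiv.prodComm _ _)) (Q2 (Fc (det f' Y) c) c)
    rw [e1]
    refine (h S d (Fc (det f' Y) c) c hc).trans (le_of_eq ?_)
    have e2 : (avg fun y => Fc (det f' Y) c y ^ 2) = pr Y := by
      unfold pr
      congr 1
      funext y
      rw [fc_det, mul_pow, sg_sq, mul_one, ind_sq']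
    rw [e2]
    rfl
  have h2 : (avg fun g : Fin (d + 1) → S → ZMod 2 => if (0 : Fin d → ZMod 2) = 0 then (1 : ℝ) else
      Q2 (Fc (det f' Y) 0) 0 (fun i => g i.succ, g 0)) = 1 := by
    simp only [if_pos rfl]
    exact avg_const 1
  have h3 : (avg fun c : Fin d → ZMod 2 => avg fun g : Fin (d + 1) → S → ZMod 2 =>
      if c = 0 then (1 : ℝ) else Q2 (Fc (det f' Y) c) c (fun i => g i.succ, g 0)) ≤
      (1 + ∑ c ∈ univ.erase (0 : Fin d → ZMod 2), (pr Y + ∑ h, ac (det f' Y) c h ^ 2) / 2) /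
        2 ^ d := by
    unfold avg at h1 h2 ⊢
    rw [hcard]
    refine div_le_div_of_nonneg_right ?_ hpos.le
    rw [← add_sum_erase univ _ (mem_univ (0 : Fin d → ZMod 2)), h2]
    exact add_le_add le_rfl (sum_le_sum fun c hc => h1 c (ne_of_mem_erase hc))
  refine h3.trans ?_
  have h4 : ((univ.erase (0 : Fin d → ZMod 2)).card : ℝ) ≤ 2 ^ d := by
    rw [← hcard]
    have := card_le_univ (univ.erase (0 : Fin d → ZMod 2))
    exact_mod_cast this
  rw [← sum_div, sum_add_distrib, sum_const, nsmul_eq_mul]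
  have h5 : ((univ.erase (0 : Fin d → ZMod 2)).card : ℝ) * pr Y ≤ 2 ^ d * pr Y :=
    mul_le_mul_of_nonneg_right h4 (pr_nonneg _)
  rw [div_le_iff₀ hpos]
  have e3 : ((pr Y + (∑ c ∈ univ.erase (0 : Fin d → ZMod 2), ∑ h, ac (det f' Y) c h ^ 2) / 2 ^ d) /
      2 + 1 / 2 ^ d) * 2 ^ d = (2 ^ d * pr Y + ∑ c ∈ univ.erase (0 : Fin d → ZMod 2),
        ∑ h, ac (det f' Y) c h ^ 2) / 2 + 1 := by
    field_simp
  rw [e3]
  linarith

end Pool.Agent.MP_ec946a.SF
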