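import Mathlib
import Pool.Agent.Lib.SE.Defs

/-!
# The reduction from label cover to 2-to-1 games with perfect completeness, value `17/20`

The definitions used by the statement.
-/

set_option autoImplicit false

namespace Pool.Agent.MP_ec946a.SF

open Pool.Agent.MP_ec946a.LR Pool.Agent.MP_ec946a.SE

variable {A B : Type} {d k n : ℕ}

/-- The `2 ^ (d + 2)` labels, read as a vector of `d + 1` bits and a further bit. -/
def lab (d : ℕ) : Fin (2 ^ (d + 2)) ≃ (Fin (d + 1) → ZMod 2) × ZMod 2 :=
  finFunctionFinEquiv.symm.trans ((Fin.consEquiv fun _ : Fin (d + 2) => ZMod 2).symm.trans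
    (Equiv.prodComm _ _))

/-- From a vector `f` of `d + 1` bits one gets the vector of the `d` bits
`f (i + 1) + ε i * f 0`. -/
def drl (ε : Fin d → ZMod 2) (f : Fin (d + 1) → ZMod 2) : Fin d → ZMod 2 :=
  fun i => f i.succ + ε i * f 0

/-- From `d + 1` functions one gets `d` functions in the same way. -/
def drp {S : Type} (ε : Fin d → ZMod 2) (g : Fin (d + 1) → S → ZMod 2) : Fin d → S → ZMod 2 :=
  fun i s => g i.succ s + ε i * g 0 s

/-- The left vertices: `R = (u, j, α, g)` and `Q = (u, j, α, β, g)`. -/
abbrev VL (I : LabelCover A B) (d k : ℕ) : Type :=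
  ((Fin k → I.X) × Fin k × (A → ZMod 2) × (Fin (d + 1) → Fin k × A → ZMod 2)) ⊕
    ((Fin k → I.X) × Fin k × (A → ZMod 2) × (A → ZMod 2) × (Fin d → Fin k × A → ZMod 2))

/-- The right vertices: `G = (W, y)` and `T = (u, j, α, t)`. -/
abbrev VR (I : LabelCover A B) (d k : ℕ) : Type :=
  ((Fin k → I.X ⊕ I.Y) × (Fin (d + 1) → Fin k × (A ⊕ B) → ZMod 2)) ⊕
    ((Fin k → I.X) × Fin k × (A → ZMod 2) × (Fin d → Fin k × A → ZMod 2))

/-- The data of an edge. -/
structure Data (I : LabelCover A B) (d k n : ℕ) : Type where
  e : Fin k → I.E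
  b : Fin k → Fin n
  y : Fin (d + 1) → Fin k × (A ⊕ B) → ZMod 2
  g : Fin (d + 1) → Fin k × A → ZMod 2
  ε : Fin (d + 1) → ZMod 2
  ε' : Fin (d + 1) → ZMod 2
  δ : Fin (d + 1) → Fin k → ZMod 2
  j : Fin k
  α : A → ZMod 2
  β : A → ZMod 2

/-- The data as a product. -/
def dataEquiv (I : LabelCover A B) (d k n : ℕ) : Data I d k n ≃
    ((Fin k → I.E) × (Fin k → Fin n) × (Fin (d + 1) → Fin k × (A ⊕ B) → ZMod 2)) ×
      ((Fin (d + 1) → Fin k × A → ZMod 2) × (Fin (d + 1) → ZMod 2) × (Fin (d + 1) → ZMod 2) ×
        (Fin (d + 1) → Fin k → ZMod 2)) × (Fin k × (A → ZMod 2) × (A → ZMod 2)) where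
  toFun t := ((t.e, t.b, t.y), (t.g, t.ε, t.ε', t.δ), (t.j, t.α, t.β))
  invFun t := ⟨t.1.1, t.1.2.1, t.1.2.2, t.2.1.1, t.2.1.2.1, t.2.1.2.2.1, t.2.1.2.2.2,
    t.2.2.1, t.2.2.2.1, t.2.2.2.2⟩
  left_inv _ := rfl
  right_inv _ := rfl

set_option synthInstance.maxSize 1000 in
instance [Fintype A] [Fintype B] [DecidableEq A] [DecidableEq B] (I : LabelCover A B) :
    Fintype (Data I d k n) :=
  Fintype.ofEquiv _ (dataEquiv I d k n).symm

/-- The left vertex of an edge with number `m < 32` and data `t`. -/
def endL (I : LabelCover A B) (m : Fin 32) (t : Data I d k n) : VL I d k :=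
  let u : Fin k → I.X := fun j => I.src (t.e j)
  if (m : ℕ) < 17 then Sum.inl (u, t.j, t.α, t.g)
  else if (m : ℕ) < 22 then
    Sum.inl (u, t.j, t.α, shift (pull I t.e t.b t.y) (loc t.j t.α) t.ε t.δ)
  else Sum.inr (u, t.j, t.α, t.β, fun i => t.g i.succ)

/-- The right vertex of an edge. -/
def endR (I : LabelCover A B) (m : Fin 32) (t : Data I d k n) : VR I d k :=
  let u : Fin k → I.X := fun j => I.src (t.e j)
  if (m : ℕ) < 17 then Sum.inr (u, t.j, t.α, drp (fun i => t.ε i.succ) t.g)
  else if (m : ℕ) < 22 then Sum.inl (side I t.e t.b, mask (side I t.e t.b) t.y)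
  else Sum.inr (u, t.j, t.α, shift2 (fun i => t.g i.succ) t.j t.α t.β (fun i => t.ε i.succ)
    fun i => t.ε' i.succ)

/-- The map of an edge, for labels written as `(f, p)`. -/
def mapE (I : LabelCover A B) (m : Fin 32) (t : Data I d k n)
    (l : (Fin (d + 1) → ZMod 2) × ZMod 2) : (Fin (d + 1) → ZMod 2) × ZMod 2 :=
  if (m : ℕ) < 17 then (Fin.cons l.2 (drl (fun i => t.ε i.succ) l.1), 0)
  else if (m : ℕ) < 22 then (fun i => l.1 i + t.ε i * l.2 + par t.δ i, 0)
  else (Fin.cons l.2 fun i => l.1 i.succ + t.ε i.succ * l.1 0 + t.ε' i.succ * (l.2 * l.1 0), 0)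

theorem mapE_fibre (I : LabelCover A B) (m : Fin 32) (t : Data I d k n)
    (c : (Fin (d + 1) → ZMod 2) × ZMod 2) :
    Nat.card {l // mapE I m t l = c} = if c.2 = 0 then 2 else 0 := by
  obtain ⟨c1, c2⟩ := c
  split_ifs with h0
  · simp only at h0
    subst h0
    unfold mapE
    split_ifs with h1 h2
    · refine card_fibre _ _ (fun a => (Fin.cons a fun i => c1 i.succ + t.ε i.succ * a, c1 0)) ?_ ?_
      · intro a b hab
        have h3 := congrFun (congrArg Prod.fst hab) 0
        simpa using h3
      · rintro ⟨f, p⟩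
        simp only [Prod.mk.injEq, and_true]
        constructor
        · intro h3
          refine ⟨f 0, ?_, ?_⟩
          · funext i
            refine Fin.cases ?_ (fun i => ?_) i
            · simp
            · have h4 := congrFun h3 i.succ
              rw [Fin.cons_succ] at h4 ⊢
              exact two_cancel.1 h4
          · have h4 := congrFun h3 0
            rw [Fin.cons_zero] at h4
            exact h4.symm
        · rintro ⟨a, h3, h4⟩
          funext i
          refine Fin.cases ?_ (fun i => ?_) i
          · rw [Fin.cons_zero, h4]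
          · have h5 := congrFun h3 i.succ
            have h6 := congrFun h3 0
            rw [Fin.cons_succ] at h5 ⊢
            rw [Fin.cons_zero] at h6
            change f i.succ + t.ε i.succ * f 0 = c1 i.succ
            rw [← h6]
            exact two_cancel.2 h5
    · refine card_fibre _ _ (fun a => (fun i => c1 i + par t.δ i + t.ε i * a, a)) ?_ ?_
      · intro a b hab
        exact congrArg (fun l => l.2) hab
      · rintro ⟨f, p⟩
        simp only [Prod.mk.injEq, and_true, funext_iff, two_cancel3]
        constructor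
        · intro h3
          exact ⟨p, h3, rfl⟩
        · rintro ⟨a, h3, h4⟩
          subst h4
          exact h3
    · refine card_fibre _ _ (fun a => (Fin.cons a fun i => c1 i.succ + t.ε' i.succ * (c1 0 * a) +
        t.ε i.succ * a, c1 0)) ?_ ?_
      · intro a b hab
        have h3 := congrFun (congrArg Prod.fst hab) 0
        simpa using h3
      · rintro ⟨f, p⟩
        simp only [Prod.mk.injEq, and_true]
        constructor
        · intro h3
          have h7 := congrFun h3 0
          rw [Fin.cons_zero] at h7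
          refine ⟨f 0, ?_, h7.symm⟩
          funext i
          refine Fin.cases ?_ (fun i => ?_) i
          · simp
          · have h4 := congrFun h3 i.succ
            rw [Fin.cons_succ] at h4 ⊢
            rw [← h7]
            exact two_cancel3.1 h4
        · rintro ⟨a, h3, h4⟩
          have h6 := congrFun h3 0
          rw [Fin.cons_zero] at h6
          funext i
          refine Fin.cases ?_ (fun i => ?_) i
          · rw [Fin.cons_zero, h4]
          · have h5 := congrFun h3 i.succ
            rw [Fin.cons_succ] at h5 ⊢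
            rw [← h6, ← h4]
            exact two_cancel3.2 h5
  · have : IsEmpty {l // mapE I m t l = (c1, c2)} := by
      constructor
      rintro ⟨l, hl⟩
      apply h0
      have h1 : (mapE I m t l).2 = 0 := by
        unfold mapE
        split_ifs <;> rfl
      rw [hl] at h1
      exact h1
    exact Nat.card_of_isEmpty

theorem lab_fibre (I : LabelCover A B) (m : Fin 32) (t : Data I d k n) (b : Fin (2 ^ (d + 2))) :
    Nat.card {a // (lab d).symm (mapE I m t (lab d a)) = b} =
      if (lab d b).2 = 0 then 2 else 0 := by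
  rw [← mapE_fibre I m t (lab d b)]
  refine Nat.card_congr ((lab d).subtypeEquiv fun a => ?_)
  rw [Equiv.symm_apply_eq]

/-- The game: the vertices, edges and maps as above, the labels being coded by `lab`. -/
def game [Fintype A] [Fintype B] [DecidableEq A] [DecidableEq B] (I : LabelCover A B)
    (d k n : ℕ) [NeZero k] [NeZero n] : Game (2 ^ (d + 2)) where
  U := VL I d k
  V := VR I d k
  E := Fin 32 × Data I d k n
  finU := by classical exact inferInstance
  finV := by classical exact inferInstance
  finE := inferInstance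
  neE := ⟨0, ⟨fun _ => Classical.arbitrary _, fun _ => 0, 0, 0, 0, 0, 0, 0, 0, 0⟩⟩
  src p := endL I p.1 p.2
  tgt p := endR I p.1 p.2
  proj p l := (lab d).symm (mapE I p.1 p.2 (lab d l))
  two_to_one p b := by
    rw [lab_fibre]
    split_ifs <;> norm_num

end Pool.Agent.MP_ec946a.SF
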