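import Mathlib
import Pool.Agent.Lib.SE.Props
import Pool.Agent.Lib.SF.Defs

/-!
# The statements of the rows (value `17/20`)
-/

set_option autoImplicit false

namespace Pool.Agent.MP_ec946a.SF

open Finset Pool.Agent.MP_ec946a.LR Pool.Agent.MP_ec946a.SE

/-! ### One function -/

section one

variable {S : Type} [Fintype S] [DecidableEq S] {d : ℕ}

/-- The law of `f' z`, restricted to the event `Y`. -/
noncomputable def det (f' : (Fin d → S → ZMod 2) → Fin d → ZMod 2)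
    (Y : (Fin d → S → ZMod 2) → Prop) (z : Fin d → S → ZMod 2) (s : Fin d → ZMod 2) : ℝ :=
  ind (Y z ∧ s = f' z)

/-- The list of `f'`. -/
noncomputable def LT (f' : (Fin d → S → ZMod 2) → Fin d → ZMod 2) (t : ℝ) :
    Finset ((S → ZMod 2) × (Fin d → ZMod 2)) := by
  classical exact univ.filter fun q => t ≤ pr fun z => f' z = ev q.1 z + q.2

lemma mem_LT {f' : (Fin d → S → ZMod 2) → Fin d → ZMod 2} {t : ℝ}
    {q : (S → ZMod 2) × (Fin d → ZMod 2)} :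
    q ∈ LT f' t ↔ t ≤ pr fun z => f' z = ev q.1 z + q.2 := by
  unfold LT; simp

/-- The vector with the first coordinate `0`. -/
def up (τ : Fin d → ZMod 2) : Fin (d + 1) → ZMod 2 := Fin.cons 0 τ

/-- The values `F g` follow a member of the list of `f'`. -/
def Gd (f' : (Fin d → S → ZMod 2) → Fin d → ZMod 2) (t : ℝ)
    (F : (Fin (d + 1) → S → ZMod 2) → Fin (d + 1) → ZMod 2) (g : Fin (d + 1) → S → ZMod 2) :
    Prop := ∃ q ∈ LT f' t, F g = ev q.1 g + up q.2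

/-- The error. -/
noncomputable def wt (d : ℕ) (t : ℝ) : ℝ := √(√(t ^ 2 + 14 / 2 ^ d)) + 2 / 2 ^ d

end one

/-- Lemma L for a law with small masses. -/
def SUBL : Prop := ∀ (S : Type) [Fintype S] [DecidableEq S] (d : ℕ)
  (μ : (Fin d → S → ZMod 2) → (Fin d → ZMod 2) → ℝ), (∀ z s, 0 ≤ μ z s) →
    (∀ z, ∑ s, μ z s ≤ 1) → ∀ t : ℝ, 1 / 2 ^ d ≤ t → (∀ q, ms μ q ≤ t) →
    (∑ c ∈ univ.erase 0, ∑ h, ac μ c h ^ 2) / 2 ^ d ≤ √(√(t ^ 2 + 14 / 2 ^ d))

/-- The second moment. -/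
def BSQ : Prop := ∀ (S : Type) [Fintype S] [DecidableEq S] (d : ℕ)
  (f' : (Fin d → S → ZMod 2) → Fin d → ZMod 2)
  (F : (Fin (d + 1) → S → ZMod 2) → Fin (d + 1) → ZMod 2) (Y : (Fin d → S → ZMod 2) → Prop),
    (avg fun g => (pr fun ε => Y (drp ε g) ∧ f' (drp ε g) = drl ε (F g)) ^ 2) ≤
      (pr Y + (∑ c ∈ univ.erase 0, ∑ h, ac (det f' Y) c h ^ 2) / 2 ^ d) / 2 + 1 / 2 ^ d

/-- The number of elements of the list. -/
def LTCARD : Prop := ∀ (S : Type) [Fintype S] [DecidableEq S] (d : ℕ)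
  (f' : (Fin d → S → ZMod 2) → Fin d → ZMod 2) (t : ℝ), 1 / 2 ^ d < t →
    ((LT f' t).card : ℝ) ≤ 1 / (t - 1 / 2 ^ d) ^ 2

/-- The edges R - T for one pair `(j, α)`. -/
def RT1 : Prop := ∀ (S : Type) [Fintype S] [DecidableEq S] (d : ℕ)
  (f' : (Fin d → S → ZMod 2) → Fin d → ZMod 2)
  (F : (Fin (d + 1) → S → ZMod 2) → Fin (d + 1) → ZMod 2) (t N : ℝ),
    1 / 2 ^ d ≤ t → ((LT f' t).card : ℝ) ≤ N →
    (pr fun w : (Fin (d + 1) → S → ZMod 2) × (Fin d → ZMod 2) =>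
      ¬ Gd f' t F w.1 ∧ f' (drp w.2 w.1) = drl w.2 (F w.1)) ≤
    √(1 / 2) * ((1 - pr (Gd f' t F)) + ((pr (Gd f' t F) -
      pr fun w : (Fin (d + 1) → S → ZMod 2) × (Fin d → ZMod 2) =>
        Gd f' t F w.1 ∧ f' (drp w.2 w.1) = drl w.2 (F w.1)) + wt d t) / 2) + N / 2 ^ d

/-! ### One tuple of left vertices -/

section three

variable {A : Type} [Fintype A] [DecidableEq A] {d k : ℕ}

/-- The labels at one tuple of left vertices. -/
structure Str2 (A : Type) (d k : ℕ) where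
  f : Fin k → (A → ZMod 2) → (Fin (d + 1) → Fin k × A → ZMod 2) → Fin (d + 1) → ZMod 2
  p : Fin k → (A → ZMod 2) → (Fin (d + 1) → Fin k × A → ZMod 2) → ZMod 2
  f' : Fin k → (A → ZMod 2) → (Fin d → Fin k × A → ZMod 2) → Fin d → ZMod 2
  p' : Fin k → (A → ZMod 2) → (Fin d → Fin k × A → ZMod 2) → ZMod 2
  F : Fin k → (A → ZMod 2) → (A → ZMod 2) → (Fin d → Fin k × A → ZMod 2) → Fin d → ZMod 2
  q : Fin k → (A → ZMod 2) → (A → ZMod 2) → (Fin d → Fin k × A → ZMod 2) → ZMod 2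
  r : Fin k → (A → ZMod 2) → (A → ZMod 2) → (Fin d → Fin k × A → ZMod 2) → ZMod 2

/-- The labels of the vertices Q and T. -/
def Str2.toStr (T : Str2 A d k) : Str A d k where
  f := 0
  p := 0
  f' := T.f'
  p' := T.p'
  F := T.F
  q := T.q
  r := T.r

/-- The edge R - T is satisfied. -/
def Sat1 (T : Str2 A d k) (j : Fin k) (α : A → ZMod 2) (g : Fin (d + 1) → Fin k × A → ZMod 2)
    (ε : Fin d → ZMod 2) : Prop :=
  T.f' j α (drp ε g) = drl ε (T.f j α g) ∧ T.p' j α (drp ε g) = T.p j α g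

/-- The fraction of the satisfied edges R - T. -/
noncomputable def p1 (T : Str2 A d k) : ℝ :=
  pr fun w : (Fin (d + 1) → Fin k × A → ZMod 2) × (Fin k × (A → ZMod 2)) × (Fin d → ZMod 2) =>
    Sat1 T w.2.1.1 w.2.1.2 w.1 w.2.2

variable {Ω : Type} [Fintype Ω]

/-- The fraction of the satisfied edges R - G. -/
noncomputable def p2 (z : Ω → Fin (d + 1) → Fin k × A → ZMod 2) (s : Ω → Fin (d + 1) → ZMod 2)
    (T : Str2 A d k) : ℝ :=
  pr fun w : Ω × (Fin k × (A → ZMod 2)) × (Fin (d + 1) → ZMod 2) ×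
      (Fin (d + 1) → Fin k → ZMod 2) =>
    lz (T.f w.2.1.1 w.2.1.2 (shift (z w.1) (loc w.2.1.1 w.2.1.2) w.2.2.1 w.2.2.2))
      (T.p w.2.1.1 w.2.1.2 (shift (z w.1) (loc w.2.1.1 w.2.1.2) w.2.2.1 w.2.2.2))
      w.2.2.1 (par w.2.2.2) = s w.1

/-- The probability that R is good. -/
noncomputable def rho (T : Str2 A d k) (t : ℝ) : ℝ :=
  pr fun w : (Fin (d + 1) → Fin k × A → ZMod 2) × (Fin k × (A → ZMod 2)) =>
    Gd (T.f' w.2.1 w.2.2) t (T.f w.2.1 w.2.2) w.1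

/-- The probability that R is good and the edge R - T satisfied. -/
noncomputable def gs (T : Str2 A d k) (t : ℝ) : ℝ :=
  pr fun w : (Fin (d + 1) → Fin k × A → ZMod 2) × (Fin k × (A → ZMod 2)) × (Fin d → ZMod 2) =>
    Gd (T.f' w.2.1.1 w.2.1.2) t (T.f w.2.1.1 w.2.1.2) w.1 ∧ Sat1 T w.2.1.1 w.2.1.2 w.1 w.2.2

/-- The probability that R follows a member of its list which is also in the list `L`. -/
noncomputable def rl (T : Str2 A d k) (t : ℝ)
    (L : Finset ((Fin k × A → ZMod 2) × (Fin (d + 1) → ZMod 2))) : ℝ :=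
  pr fun w : (Fin (d + 1) → Fin k × A → ZMod 2) × (Fin k × (A → ZMod 2)) =>
    ∃ q ∈ LT (T.f' w.2.1 w.2.2) t, (q.1, up q.2) ∈ L ∧
      T.f w.2.1 w.2.2 w.1 = ev q.1 w.1 + up q.2 ∧
      T.p w.2.1 w.2.2 w.1 = dt q.1 (loc w.2.1 w.2.2)

/-- The members `(h, τ)` with `(h, up τ)` in `L`. -/
noncomputable def L0 (L : Finset ((Fin k × A → ZMod 2) × (Fin (d + 1) → ZMod 2))) :
    Finset ((Fin k × A → ZMod 2) × (Fin d → ZMod 2)) := by
  classical exact univ.filter fun q => (q.1, up q.2) ∈ L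

lemma mem_L0 {L : Finset ((Fin k × A → ZMod 2) × (Fin (d + 1) → ZMod 2))}
    {q : (Fin k × A → ZMod 2) × (Fin d → ZMod 2)} : q ∈ L0 L ↔ (q.1, up q.2) ∈ L := by
  unfold L0; simp

end three

/-- The edges R - T. -/
def RTJ : Prop := ∀ (A : Type) [Fintype A] [DecidableEq A] (d k : ℕ) [NeZero k] (T : Str2 A d k)
  (t N : ℝ), 1 / 2 ^ d ≤ t → (∀ j α, ((LT (T.f' j α) t).card : ℝ) ≤ N) →
    p1 T ≤ gs T t + √(1 / 2) * ((1 - rho T t) + ((rho T t - gs T t) + wt d t) / 2) + N / 2 ^ d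

/-- The edges R - G. -/
def ROWRG : Prop := ∀ (A : Type) [Fintype A] [DecidableEq A] (d k : ℕ) [NeZero k] (Ω : Type)
  [Fintype Ω] [Nonempty Ω] (z : Ω → Fin (d + 1) → Fin k × A → ZMod 2)
  (s : Ω → Fin (d + 1) → ZMod 2) (T : Str2 A d k) (ξ t t' N : ℝ), Cov z ξ → 0 ≤ t' →
    (∀ j α, ((LT (T.f' j α) t).card : ℝ) ≤ N) →
    rho T t ≤ (1 - p2 z s T) + rl T t (LL z s t') + N * (t' + 1 / 2 ^ d) + 2 * ξ

/-- The vertices T. -/
def ROWP : Prop := ∀ (A : Type) [Fintype A] [DecidableEq A] (d k : ℕ) [NeZero k]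
  (T : Str2 A d k) (t : ℝ) (L : Finset ((Fin k × A → ZMod 2) × (Fin (d + 1) → ZMod 2))),
    rl T t L ≤ (rho T t - gs T t) + PT T.toStr (L0 L)

/-- The list `L0`. -/
def ROWL0 : Prop := ∀ (A : Type) [Fintype A] [DecidableEq A] (d k : ℕ)
  (L : Finset ((Fin k × A → ZMod 2) × (Fin (d + 1) → ZMod 2))),
    (L0 L).card ≤ L.card ∧ kap (L0 L) ≤ kap L

/-- The sum, with the numbers. -/
def INNER2 : Prop := ∀ (A : Type) [Fintype A] [DecidableEq A] (k : ℕ) [NeZero k] (Ω : Type)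
  [Fintype Ω] [Nonempty Ω] (z : Ω → Fin 127 → Fin k × A → ZMod 2) (s : Ω → Fin 127 → ZMod 2)
  (T : Str2 A 126 k) (ξ : ℝ), ξ ≤ 1 / 2 ^ 42 → Cov z ξ →
    ((LL z s (1 / 2 ^ 40)).card : ℝ) ≤ 2 ^ 82 ∧
    485 / 100 - 5 * kap (LL z s (1 / 2 ^ 40)) ≤
      17 * (1 - p1 T) + 5 * (1 - p2 z s T) + 10 * (1 - pa T.toStr)

/-! ### The game -/

section game

variable {A B : Type} [Fintype A] [Fintype B] [DecidableEq A] [DecidableEq B] {d k n : ℕ}

/-- The labels at the tuple `u` of a labeling of the game. -/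
def strat (I : LabelCover A B) (LU : VL I d k → (Fin (d + 1) → ZMod 2) × ZMod 2)
    (LV : VR I d k → (Fin (d + 1) → ZMod 2) × ZMod 2) (u : Fin k → I.X) : Str2 A d k where
  f j α g := (LU (Sum.inl (u, j, α, g))).1
  p j α g := (LU (Sum.inl (u, j, α, g))).2
  f' j α t := fun i => (LV (Sum.inr (u, j, α, t))).1 i.succ
  p' j α t := (LV (Sum.inr (u, j, α, t))).1 0
  F j α β g := fun i => (LU (Sum.inr (u, j, α, β, g))).1 i.succ
  q j α β g := (LU (Sum.inr (u, j, α, β, g))).2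
  r j α β g := (LU (Sum.inr (u, j, α, β, g))).1 0

end game

/-- The value of the game and the three fractions. -/
def VALUE2 : Prop := ∀ (A B : Type) [Fintype A] [Fintype B] [DecidableEq A] [DecidableEq B]
  (I : LabelCover A B) (d k n : ℕ) [NeZero k] [NeZero n] (v : ℝ),
  (∀ (LU : VL I d k → (Fin (d + 1) → ZMod 2) × ZMod 2)
    (LV : VR I d k → (Fin (d + 1) → ZMod 2) × ZMod 2),
    32 * (1 - v) ≤ avg fun e : Fin k → I.E =>
      17 * (1 - p1 (strat I LU LV fun i => I.src (e i))) +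
      5 * (1 - p2 (fun ω : (Fin k → Fin n) × (Fin (d + 1) → Fin k × (A ⊕ B) → ZMod 2) =>
          pull I e ω.1 ω.2) (fun ω => (LV (Sum.inl (side I e ω.1, mask (side I e ω.1) ω.2))).1)
          (strat I LU LV fun i => I.src (e i))) +
      10 * (1 - pa (strat I LU LV fun i => I.src (e i)).toStr)) →
  (game I d k n).value ≤ v

/-- Completeness. -/
def COMPL2 : Prop := ∀ (A B : Type) [Fintype A] [Fintype B] [DecidableEq A] [DecidableEq B]
  (I : LabelCover A B) (d k n : ℕ) [NeZero k] [NeZero n], I.value = 1 → (game I d k n).value = 1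

/-- The number of edges. -/
def CARDE2 : Prop := ∀ (A B : Type) [Fintype A] [Fintype B] [DecidableEq A] [DecidableEq B]
  (d k n : ℕ) [NeZero k] [NeZero n], ∃ C : ℕ, ∀ I : LabelCover A B,
    Nat.card (game I d k n).E = C * Nat.card I.E ^ k

/-- The reduction: `d = 126`, so that there are `2 ^ 128` labels. -/
def red {A B : Type} [Fintype A] [Fintype B] [DecidableEq A] [DecidableEq B]
    (I : LabelCover A B) : Game (2 ^ 128) :=
  game I 126 (2 ^ (617 + 127 * Fintype.card A)) (2 ^ (351 + 127 * Fintype.card A))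

/-- The theorem. -/
def MAIN2 : Prop := ∀ (A B : Type) [Fintype A] [Fintype B] [DecidableEq A] [DecidableEq B]
  [Nonempty A], ∃ k C : ℕ, ∀ I : LabelCover A B,
    (∀ e b, Nat.card {a // (red I).proj e a = b} = 0 ∨ Nat.card {a // (red I).proj e a = b} = 2) ∧
    Nat.card (red I).E = C * Nat.card I.E ^ k ∧
    (I.value = 1 → (red I).value = 1) ∧ (I.value ≤ 1 / 2 ^ 230 → (red I).value ≤ 17 / 20)

end Pool.Agent.MP_ec946a.SF
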