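import Mathlib
import Pool.Agent.Lib.SF.Props
import Pool.Agent.Lib.SE.Compl

/-!
# Completeness of the reduction with value 17/20
-/

set_option autoImplicit false

namespace Pool.Agent.MP_ec946a.SF

open Finset Pool.Agent.MP_ec946a.LR Pool.Agent.MP_ec946a.SE

namespace COMPLrow

variable {A B : Type} {d k n : ℕ}

/-- the labels of the left vertices -/
def labL (I : LabelCover A B) (L : I.Labeling) : VL I d k → (Fin (d + 1) → ZMod 2) × ZMod 2
  | Sum.inl (u, j, α, g) => (fun i => ∑ j', g i (j', L.1 (u j')), α (L.1 (u j)))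
  | Sum.inr (u, j, α, β, g) =>
    (Fin.cons (β (L.1 (u j))) fun i => ∑ j', g i (j', L.1 (u j')), α (L.1 (u j)))

/-- the labels of the right vertices -/
def labR (I : LabelCover A B) (L : I.Labeling) : VR I d k → (Fin (d + 1) → ZMod 2) × ZMod 2
  | Sum.inl (W, y) => (fun i => ∑ j, y i (j, Sum.map L.1 L.2 (W j)), 0)
  | Sum.inr (u, j, α, t) => (Fin.cons (α (L.1 (u j))) fun i => ∑ j', t i (j', L.1 (u j')), 0)

lemma sum_drp (I : LabelCover A B) (L : I.Labeling) (u : Fin k → I.X) (ε : Fin d → ZMod 2)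
    (g : Fin (d + 1) → Fin k × A → ZMod 2) (i : Fin d) :
    ∑ j, drp ε g i (j, L.1 (u j)) = drl ε (fun i => ∑ j, g i (j, L.1 (u j))) i := by
  unfold drp drl
  rw [sum_add_distrib, ← mul_sum]

lemma sat (I : LabelCover A B) (L : I.Labeling) (hL : ∀ e, I.Sat L e) (m : Fin 32)
    (t : Data I d k n) : mapE I m t (labL I L (endL I m t)) = labR I L (endR I m t) := by
  unfold mapE endL endR
  by_cases h1 : (m : ℕ) < 17
  · simp only [h1, if_true, labL, labR]
    refine Prod.ext ?_ rfl
    simp only
    refine congrArg (Fin.cons _) (funext fun i => ?_)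
    rw [sum_drp]
  · by_cases h2 : (m : ℕ) < 22
    · simp only [h1, h2, if_true, if_false, labL, labR]
      refine Prod.ext (funext fun i => ?_) rfl
      simp only
      have h3 := SE.COMPLrow.sum_shift I L (fun j => I.src (t.e j)) (pull I t.e t.b t.y)
        (loc t.j t.α) t.ε t.δ i
      rw [SE.COMPLrow.sum_loc I L (fun j => I.src (t.e j)) t.j t.α] at h3
      rw [h3]
      exact sum_congr rfl fun j _ => SE.COMPLrow.pull_eq I L hL t.e t.b t.y i j
    · simp only [h1, h2, if_false, labL, labR]
      refine Prod.ext ?_ rfl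
      simp only
      refine congrArg (Fin.cons _) (funext fun i => ?_)
      rw [SE.COMPLrow.sum_shift2]
      simp only [Fin.cons_succ, Fin.cons_zero]

end COMPLrow

theorem compl : COMPL2 := by
  intro A B _ _ _ _ I d k n _ _ h
  obtain ⟨L, hL⟩ := SE.COMPLrow.exists_labeling I h
  refine SE.COMPLrow.value_eq_one (game I d k n)
    (fun x => (lab d).symm (COMPLrow.labL I L x)) (fun x => (lab d).symm (COMPLrow.labR I L x)) ?_
  intro e
  show (lab d).symm (mapE I e.1 e.2 (lab d ((lab d).symm (COMPLrow.labL I L (endL I e.1 e.2))))) =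
    (lab d).symm (COMPLrow.labR I L (endR I e.1 e.2))
  rw [Equiv.apply_symm_apply, COMPLrow.sat I L hL]

end Pool.Agent.MP_ec946a.SF
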