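import Mathlib
import Pool.Agent.Lib.SF.Props

/-!
# Row FINAL2: the theorem from the rows
-/

set_option autoImplicit false

namespace Pool.Agent.MP_ec946a.SF

open Finset Pool.Agent.MP_ec946a.LR Pool.Agent.MP_ec946a.SE

namespace FINAL2

/-- the covering error -/
lemma xi_le (a : ℕ) : √((1 + 2 ^ (127 * a) / ((2 ^ (351 + 127 * a) : ℕ) : ℝ) ^ 2) ^
    (2 ^ (617 + 127 * a) : ℕ) - 1) ≤ 1 / 2 ^ 42 := by
  obtain ⟨x, hx⟩ : ∃ x : ℝ, x = 2 ^ (127 * a) / ((2 ^ (351 + 127 * a) : ℕ) : ℝ) ^ 2 := ⟨_, rfl⟩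
  rw [← hx]
  have hx0 : 0 ≤ x := by
    rw [hx]
    positivity
  have h1 : ((2 ^ (617 + 127 * a) : ℕ) : ℝ) * x = 1 / 2 ^ 85 := by
    rw [hx]
    push_cast
    rw [← pow_mul, mul_div_assoc', ← pow_add, div_eq_div_iff (by positivity) (by positivity),
      ← pow_add, one_mul]
    congr 1
    ring
  have h2 : (1 + x) ^ (2 ^ (617 + 127 * a) : ℕ) ≤ Real.exp (1 / 2 ^ 85) := by
    rw [← h1, Real.exp_nat_mul]
    refine pow_le_pow_left₀ (by linarith) ?_ _
    have := Real.add_one_le_exp x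
    linarith
  have h3 : Real.exp (1 / 2 ^ 85) ≤ 1 + 1 / 2 ^ 84 := by
    have h4 := Real.one_sub_le_exp_neg ((1 : ℝ) / 2 ^ 85)
    rw [Real.exp_neg] at h4
    have h5 : (0 : ℝ) < 1 - 1 / 2 ^ 85 := by norm_num
    have h6 : Real.exp (1 / 2 ^ 85) ≤ (1 - (1 : ℝ) / 2 ^ 85)⁻¹ := by
      rw [← inv_inv (Real.exp (1 / 2 ^ 85))]
      exact inv_anti₀ h5 h4
    refine h6.trans ?_
    rw [inv_le_comm₀ h5 (by positivity)]
    have h7 : (1 + (1 : ℝ) / 2 ^ 84)⁻¹ = 2 ^ 84 / (2 ^ 84 + 1) := by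
      field_simp
    rw [h7, div_le_iff₀ (by positivity)]
    norm_num
  calc √((1 + x) ^ (2 ^ (617 + 127 * a) : ℕ) - 1) ≤ √(1 / 2 ^ 84) := by
        refine Real.sqrt_le_sqrt ?_
        linarith
    _ = 1 / 2 ^ 42 := by
        rw [show (1 / 2 ^ 84 : ℝ) = (1 / 2 ^ 42) ^ 2 from by norm_num]
        exact Real.sqrt_sq (by positivity)

/-- the outer error -/
lemma outer_num (a : ℕ) {v : ℝ} (hv0 : 0 ≤ v) (hv : v ≤ 1 / 2 ^ 230) :
    1 / ((1 : ℝ) / 2 ^ 40 - 1 / 2 ^ 41) * (((2 ^ 83 : ℕ) : ℝ) ^ 2 * ((92 : ℕ) : ℝ) ^ 2 * v +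
      ((2 ^ 83 : ℕ) : ℝ) * √(((2 ^ (351 + 127 * a) : ℕ) : ℝ) / ((2 ^ (617 + 127 * a) : ℕ) : ℝ))) +
      ((2 ^ 83 : ℕ) : ℝ) / 2 ^ 92 ≤ 1 / 100 := by
  have h1 : √(((2 ^ (351 + 127 * a) : ℕ) : ℝ) / ((2 ^ (617 + 127 * a) : ℕ) : ℝ)) = 1 / 2 ^ 133 := by
    have h2 : ((2 ^ (351 + 127 * a) : ℕ) : ℝ) / ((2 ^ (617 + 127 * a) : ℕ) : ℝ) =
        (1 / 2 ^ 133) ^ 2 := by
      push_cast
      rw [one_div, inv_pow, ← one_div, ← pow_mul, div_eq_div_iff (by positivity) (by positivity),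
        ← pow_add, one_mul]
      congr 1
      ring
    rw [h2]
    exact Real.sqrt_sq (by positivity)
  rw [h1]
  have h3 : ((2 ^ 83 : ℕ) : ℝ) ^ 2 * ((92 : ℕ) : ℝ) ^ 2 * v ≤ 2 ^ 180 * (1 / 2 ^ 230) := by
    refine mul_le_mul ?_ hv hv0 (by positivity)
    norm_num
  have h4 : (1 : ℝ) / (1 / 2 ^ 40 - 1 / 2 ^ 41) = 2 ^ 41 := by norm_num
  rw [h4]
  have h5 : (2 : ℝ) ^ 41 * (((2 ^ 83 : ℕ) : ℝ) ^ 2 * ((92 : ℕ) : ℝ) ^ 2 * v +
      ((2 ^ 83 : ℕ) : ℝ) * (1 / 2 ^ 133)) ≤ 2 ^ 41 * (2 ^ 180 * (1 / 2 ^ 230) +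
      ((2 ^ 83 : ℕ) : ℝ) * (1 / 2 ^ 133)) :=
    mul_le_mul_of_nonneg_left (by linarith) (by positivity)
  refine (add_le_add_left h5 _).trans ?_
  norm_num

variable {A B : Type} [Fintype A] [Fintype B] [DecidableEq A] [DecidableEq B] {d k n : ℕ}

/-- the fraction of the satisfied edges R - G over a tuple `u` -/
lemma p2_avg (I : LabelCover A B) (u : Fin k → I.X)
    (s : (Fin k → I.X ⊕ I.Y) × (Fin (d + 1) → Fin k × (A ⊕ B) → ZMod 2) →
      Fin (d + 1) → ZMod 2) (T : Str2 A d k) :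
    p2 (zU I (d + 1) k n u) (sU I (d + 1) k n s u) T =
      avg fun e : EU I u => p2 (fun ω : (Fin k → Fin n) × (Fin (d + 1) → Fin k × (A ⊕ B) → ZMod 2) =>
        pull I e.1 ω.1 ω.2) (fun ω => s (side I e.1 ω.1, mask (side I e.1 ω.1) ω.2)) T := by
  unfold p2 pr
  rw [avg_prod, avg_prod]
  refine congrArg avg (funext fun e => ?_)
  conv_rhs => rw [avg_prod]
  rfl

end FINAL2

open FINAL2 in
theorem main2 (h1 : INNER2) (h2 : COVU) (h3 : MMCARD) (h4 : OUTER) (h5 : FIB) (h6 : VALUE2)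
    (h7 : COMPL2) (h8 : CARDE2) : MAIN2 := by
  intro A B _ _ _ _ _
  obtain ⟨C, hC⟩ := h8 A B 126 (2 ^ (617 + 127 * Fintype.card A)) (2 ^ (351 + 127 * Fintype.card A))
  refine ⟨2 ^ (617 + 127 * Fintype.card A), C, fun I => ⟨?_, hC I, ?_, ?_⟩⟩
  · intro e b
    change Nat.card {a // (lab 126).symm (mapE I e.1 e.2 (lab 126 a)) = b} = 0 ∨
      Nat.card {a // (lab 126).symm (mapE I e.1 e.2 (lab 126 a)) = b} = 2
    rw [lab_fibre]
    split_ifs
    · right; rfl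
    · left; rfl
  · exact h7 A B I 126 _ _
  · intro hv
    refine h6 A B I 126 (2 ^ (617 + 127 * Fintype.card A)) (2 ^ (351 + 127 * Fintype.card A))
      (17 / 20) ?_
    intro LU LV
    obtain ⟨s, hs⟩ : ∃ s : (Fin (2 ^ (617 + 127 * Fintype.card A)) → I.X ⊕ I.Y) ×
        (Fin (126 + 1) → Fin (2 ^ (617 + 127 * Fintype.card A)) × (A ⊕ B) → ZMod 2) →
        Fin (126 + 1) → ZMod 2, s = fun x => (LV (Sum.inl x)).1 := ⟨_, rfl⟩
    have hcov : ∀ u, Nonempty (EU I u) →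
        Cov (zU I 127 (2 ^ (617 + 127 * Fintype.card A)) (2 ^ (351 + 127 * Fintype.card A)) u)
          √((1 + 2 ^ (127 * Fintype.card A) /
            ((2 ^ (351 + 127 * Fintype.card A) : ℕ) : ℝ) ^ 2) ^
            (2 ^ (617 + 127 * Fintype.card A) : ℕ) - 1) :=
      fun u hu => h2 A B I 127 _ _ u hu
    have hin := fun (u : Fin (2 ^ (617 + 127 * Fintype.card A)) → I.X)
        (hu : Nonempty (EU I u)) =>
      h1 A (2 ^ (617 + 127 * Fintype.card A))
        (OU I 127 (2 ^ (617 + 127 * Fintype.card A)) (2 ^ (351 + 127 * Fintype.card A)) u)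
        (zU I 127 _ _ u) (sU I 127 _ _ s u) (strat I LU LV u) _
        (xi_le (Fintype.card A)) (hcov u hu)
    have hout := h4 A B I 127 (2 ^ (617 + 127 * Fintype.card A))
      (2 ^ (351 + 127 * Fintype.card A)) (2 ^ 83) 92 s (1 / 2 ^ 40) (1 / 2 ^ 41) (by positivity)
      (by norm_num) (by
        intro u hu
        have h9 := (hin u hu).1
        have h10 : ((LL (zU I 127 (2 ^ (617 + 127 * Fintype.card A))
          (2 ^ (351 + 127 * Fintype.card A)) u) (sU I 127 _ _ s u) (1 / 2 ^ 40)).card : ℝ) ≤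
          ((2 ^ 83 : ℕ) : ℝ) := h9.trans (by norm_num)
        exact_mod_cast h10) (by
        intro W
        have h9 := h3 A B I 127 (2 ^ (617 + 127 * Fintype.card A)) s (1 / 2 ^ 41) W (by norm_num)
        have h10 : ((MM I 127 (2 ^ (617 + 127 * Fintype.card A)) s (1 / 2 ^ 41) W).card : ℝ) ≤
            ((2 ^ 83 : ℕ) : ℝ) := by
          refine h9.trans ?_
          rw [div_le_iff₀ (by norm_num)]
          norm_num
        exact_mod_cast h10)
    have hv0 : 0 ≤ I.value := by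
      unfold LabelCover.value
      exact Real.iSup_nonneg fun L => by positivity
    have hkap := hout.trans (outer_num (Fintype.card A) hv0 hv)
    have hfib := h5 A B I (2 ^ (617 + 127 * Fintype.card A))
      (fun e => 17 * (1 - p1 (strat I LU LV fun i => I.src (e i))) +
        5 * (1 - p2 (fun ω : (Fin (2 ^ (617 + 127 * Fintype.card A)) →
            Fin (2 ^ (351 + 127 * Fintype.card A))) ×
            (Fin (126 + 1) → Fin (2 ^ (617 + 127 * Fintype.card A)) × (A ⊕ B) → ZMod 2) =>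
          pull I e ω.1 ω.2) (fun ω => s (side I e ω.1, mask (side I e ω.1) ω.2))
          (strat I LU LV fun i => I.src (e i))) +
        10 * (1 - pa (strat I LU LV fun i => I.src (e i)).toStr))
      (fun u => 485 / 100 - 5 * kap (LL (zU I 127 (2 ^ (617 + 127 * Fintype.card A))
        (2 ^ (351 + 127 * Fintype.card A)) u) (sU I 127 _ _ s u) (1 / 2 ^ 40))) (by
        intro u hu
        refine (hin u hu).2.trans (le_of_eq ?_)
        have h11 : ∀ e : EU I u, (fun i => I.src (e.1 i)) = u := fun e => funext e.2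
        simp only [h11]
        rw [avg_add, avg_const, avg_add, avg_const, avg_mul_left, avg_sub, avg_const,
          p2_avg])
    rw [hs] at hfib
    refine le_trans ?_ hfib
    rw [avg_sub, avg_const, avg_mul_left]
    rw [hs] at hkap
    linarith

end Pool.Agent.MP_ec946a.SF
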