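import Mathlib
import Pool.Agent.Lib.SF.Props

/-!
# Row INNER2: the sum over the three types of edges, with the numbers
-/

set_option autoImplicit false

namespace Pool.Agent.MP_ec946a.SF

open Finset Pool.Agent.MP_ec946a.LR Pool.Agent.MP_ec946a.SE

namespace INNER2

lemma wt_le : wt 126 (1 / 2 ^ 12) ≤ 16 / 1000 := by
  unfold wt
  have h1 : √((1 / 2 ^ 12 : ℝ) ^ 2 + 14 / 2 ^ 126) ≤ 245 / 1000000 := by
    rw [show (245 / 1000000 : ℝ) = √((245 / 1000000) ^ 2) from (Real.sqrt_sq (by norm_num)).symm]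
    exact Real.sqrt_le_sqrt (by norm_num)
  have h2 : √(√((1 / 2 ^ 12 : ℝ) ^ 2 + 14 / 2 ^ 126)) ≤ 157 / 10000 := by
    rw [show (157 / 10000 : ℝ) = √((157 / 10000) ^ 2) from (Real.sqrt_sq (by norm_num)).symm]
    exact Real.sqrt_le_sqrt (h1.trans (by norm_num))
  have h3 : (2 : ℝ) / 2 ^ 126 ≤ 1 / 10000 := by norm_num
  linarith

lemma half_le : √(1 / 2 : ℝ) ≤ 70711 / 100000 := by
  rw [show (70711 / 100000 : ℝ) = √((70711 / 100000) ^ 2) from (Real.sqrt_sq (by norm_num)).symm]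
  exact Real.sqrt_le_sqrt (by norm_num)

end INNER2

open INNER2 in
theorem inner2 (h1 : RTJ) (h2 : ROWRG) (h3 : ROWP) (h4 : ROWL0) (h5 : LTCARD) (h6 : ROWLL)
    (h7 : ROWA) : INNER2 := by
  intro A _ _ k _ Ω _ _ z s T ξ hξ hC
  have hξ0 : 0 ≤ ξ := by
    have h := hC (fun _ => 0) fun _ => ⟨le_rfl, zero_le_one⟩
    exact (abs_nonneg _).trans h
  have hcard : ((LL z s (1 / 2 ^ 40)).card : ℝ) ≤ 2 ^ 82 := by
    refine (h6 A 127 k Ω z s ξ (1 / 2 ^ 40) hC ?_).trans ?_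
    · have : (1 : ℝ) / 2 ^ 127 + 1 / 2 ^ 42 < 1 / 2 ^ 40 := by norm_num
      linarith
    · have h8 : (1 : ℝ) / 2 ^ 41 ≤ 1 / 2 ^ 40 - ξ - 1 / 2 ^ 127 := by
        have h9 : (1 : ℝ) / 2 ^ 41 + 1 / 2 ^ 42 + 1 / 2 ^ 127 ≤ 1 / 2 ^ 40 := by norm_num
        linarith
      have h10 : ((1 : ℝ) / 2 ^ 41) ^ 2 ≤ (1 / 2 ^ 40 - ξ - 1 / 2 ^ 127) ^ 2 :=
        pow_le_pow_left₀ (by positivity) h8 2
      calc 1 / (1 / 2 ^ 40 - ξ - 1 / 2 ^ 127) ^ 2 ≤ 1 / ((1 : ℝ) / 2 ^ 41) ^ 2 :=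
            one_div_le_one_div_of_le (by positivity) h10
        _ = 2 ^ 82 := by norm_num
  refine ⟨hcard, ?_⟩
  obtain ⟨L, hL⟩ : ∃ L, L = LL z s (1 / 2 ^ 40) := ⟨_, rfl⟩
  have hN : ∀ j α, ((LT (T.f' j α) (1 / 2 ^ 12)).card : ℝ) ≤ 2 ^ 25 := by
    intro j α
    refine (h5 (Fin k × A) 126 (T.f' j α) (1 / 2 ^ 12) (by norm_num)).trans ?_
    have h8 : (1 : ℝ) / 2 ^ 12 - 1 / 2 ^ 14 ≤ 1 / 2 ^ 12 - 1 / 2 ^ 126 := by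
      have : (1 : ℝ) / 2 ^ 126 ≤ 1 / 2 ^ 14 := by norm_num
      linarith
    have h10 : ((1 : ℝ) / 2 ^ 12 - 1 / 2 ^ 14) ^ 2 ≤ (1 / 2 ^ 12 - 1 / 2 ^ 126) ^ 2 :=
      pow_le_pow_left₀ (by norm_num) h8 2
    calc 1 / ((1 : ℝ) / 2 ^ 12 - 1 / 2 ^ 126) ^ 2 ≤ 1 / ((1 : ℝ) / 2 ^ 12 - 1 / 2 ^ 14) ^ 2 :=
          one_div_le_one_div_of_le (by norm_num) h10
      _ ≤ 2 ^ 25 := by norm_num
  have e1 := h1 A 126 k T (1 / 2 ^ 12) (2 ^ 25) (by norm_num) hN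
  have e2 := h2 A 126 k Ω z s T ξ (1 / 2 ^ 12) (1 / 2 ^ 40) (2 ^ 25) hC (by norm_num) hN
  have e3 := h3 A 126 k T (1 / 2 ^ 12) L
  have e4 := h4 A 126 k L
  have e7 := h7 A 126 k T.toStr (L0 L)
  rw [← hL] at hcard e2 ⊢
  have hc0 : ((L0 L).card : ℝ) ≤ 2 ^ 82 := le_trans (by exact_mod_cast e4.1) hcard
  have hc1 : ((L0 L).card : ℝ) / 2 ^ 126 ≤ 1 / 2 ^ 44 := by
    rw [div_le_iff₀ (by positivity)]
    refine hc0.trans (le_of_eq (by norm_num))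
  have hk := e4.2
  have hw := wt_le
  have hh := half_le
  have hh0 : 0 ≤ √(1 / 2 : ℝ) := Real.sqrt_nonneg _
  have hρ1 : rho T (1 / 2 ^ 12) ≤ 1 := pr_le_one _
  have hρ0 : 0 ≤ rho T (1 / 2 ^ 12) := pr_nonneg _
  have hgs : gs T (1 / 2 ^ 12) ≤ rho T (1 / 2 ^ 12) := by
    have h11 : rho T (1 / 2 ^ 12) =
        pr fun w : (Fin (126 + 1) → Fin k × A → ZMod 2) × (Fin k × (A → ZMod 2)) ×
          (Fin 126 → ZMod 2) => Gd (T.f' w.2.1.1 w.2.1.2) (1 / 2 ^ 12) (T.f w.2.1.1 w.2.1.2) w.1 := by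
      unfold rho pr
      rw [avg_prod, avg_prod]
      refine congrArg avg (funext fun g => ?_)
      exact (avg_fst (β := Fin 126 → ZMod 2) fun w : Fin k × (A → ZMod 2) =>
        ind (Gd (T.f' w.1 w.2) (1 / 2 ^ 12) (T.f w.1 w.2) g)).symm
    rw [h11]
    exact pr_mono fun w hw => hw.1
  obtain ⟨σ, hσ⟩ : ∃ σ, σ = 1 - rho T (1 / 2 ^ 12) := ⟨_, rfl⟩
  obtain ⟨ug, hug⟩ : ∃ ug, ug = rho T (1 / 2 ^ 12) - gs T (1 / 2 ^ 12) := ⟨_, rfl⟩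
  have hσ0 : 0 ≤ σ := by linarith
  have hug0 : 0 ≤ ug := by linarith
  have hw0 : 0 ≤ wt 126 (1 / 2 ^ 12) := by
    unfold wt
    positivity
  have e8 : √(1 / 2 : ℝ) * ((1 - rho T (1 / 2 ^ 12)) + ((rho T (1 / 2 ^ 12) -
      gs T (1 / 2 ^ 12)) + wt 126 (1 / 2 ^ 12)) / 2) ≤ 70711 / 100000 * (σ + (ug + 16 / 1000) / 2) := by
    rw [← hσ, ← hug]
    exact mul_le_mul hh (by linarith) (by linarith) (by norm_num)
  have n1 : (2 : ℝ) ^ 25 / 2 ^ 126 ≤ 1 / 10 ^ 6 := by norm_num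
  have n2 : (2 : ℝ) ^ 25 * (1 / 2 ^ 40 + 1 / 2 ^ 126) ≤ 1 / 10 ^ 4 := by norm_num
  have n3 : (1 : ℝ) / 2 ^ 42 ≤ 1 / 10 ^ 6 := by norm_num
  have n4 : (1 : ℝ) / 2 ^ 44 ≤ 1 / 10 ^ 6 := by norm_num
  have f1 : 1 - p1 T ≥ σ + ug - 70711 / 100000 * (σ + (ug + 16 / 1000) / 2) - 1 / 10 ^ 6 := by
    linarith
  have f2 : 1 - p2 z s T ≥ (1 - σ) - rl T (1 / 2 ^ 12) L - 1 / 10 ^ 4 - 2 / 10 ^ 6 := by
    linarith
  have f3 : 2 * (1 - pa T.toStr) ≥ rl T (1 / 2 ^ 12) L - ug - 2 / 10 ^ 6 - kap L := by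
    linarith
  linarith

end Pool.Agent.MP_ec946a.SF
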