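import Mathlib
import Pool.Agent.Lib.SF.Props
import Pool.Agent.Lib.SE.Base
import Pool.Agent.Lib.SE.Count

/-!
# The list of a deterministic labeling (rows LTCARD and ROWL0)
-/

set_option autoImplicit false

namespace Pool.Agent.MP_ec946a.SF

open Finset Pool.Agent.MP_ec946a.LR Pool.Agent.MP_ec946a.SE

theorem ltcard (h : COUNT) : LTCARD := by
  intro S _ _ d f' t ht
  have h1 := h S d (fun z s => ind (f' z = s)) (SE.COUNT.isLaw_ind f') t ht
  have h2 : LT f' t = Hvy (fun z s => ind (f' z = s)) t := by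
    ext q
    rw [mem_LT, mem_Hvy]
    rfl
  rw [h2]
  exact h1

theorem rowL0 : ROWL0 := by
  intro A _ _ d k L
  constructor
  · refine card_le_card_of_injOn (fun q => (q.1, up q.2)) (fun q hq => ?_) ?_
    · exact mem_coe.2 (mem_L0.1 (mem_coe.1 hq))
    · rintro ⟨h, τ⟩ _ ⟨h', τ'⟩ _ hqq
      simp only [Prod.mk.injEq] at hqq ⊢
      exact ⟨hqq.1, (Fin.cons_injective2 hqq.2).2⟩
  · refine pr_mono fun w => ?_
    rintro ⟨q, hq, c, hc⟩
    exact ⟨(q.1, up q.2), mem_L0.1 hq, c, hc⟩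

end Pool.Agent.MP_ec946a.SF
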