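import Mathlib
import Pool.Agent.Lib.SE.RowC
import Pool.Agent.Lib.SE.Cove
import Pool.Agent.Lib.SF.Props

/-!
# The edges R - G
-/

set_option autoImplicit false

namespace Pool.Agent.MP_ec946a.SF

open Finset Pool.Agent.MP_ec946a.LR Pool.Agent.MP_ec946a.SE

namespace ROWRG

variable {A : Type} [Fintype A] [DecidableEq A] {d k : ℕ}

omit [DecidableEq A] in
lemma ev_shift (h : Fin k × A → ZMod 2) (z : Fin d → Fin k × A → ZMod 2)
    (x : Fin k × A → ZMod 2) (ε : Fin d → ZMod 2) (δ : Fin d → Fin k → ZMod 2) (i : Fin d) :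
    ev h (shift z x ε δ) i = ev h z i + ε i * dt h x + ∑ j, (∑ a, h (j, a)) * δ i j := by
  have h1 : (∑ s : Fin k × A, h s * δ i s.1) = ∑ j, (∑ a, h (j, a)) * δ i j := by
    rw [Fintype.sum_prod_type]
    refine sum_congr rfl fun j _ => ?_
    simp only
    rw [← sum_mul]
  unfold ev dt shift
  rw [← h1, mul_sum, ← sum_add_distrib, ← sum_add_distrib]
  exact sum_congr rfl fun s _ => by ring

/-- the form in `δ` -/
def ze (h : Fin k × A → ZMod 2) (δ : Fin d → Fin k → ZMod 2) : Fin d → ZMod 2 :=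
  fun i => ∑ j, (1 + ∑ a, h (j, a)) * δ i j

omit [DecidableEq A] in
lemma ze_odd {h : Fin k × A → ZMod 2} (hh : IsOdd h) (δ : Fin d → Fin k → ZMod 2) :
    ze h δ = 0 := by
  funext i
  refine sum_eq_zero fun j _ => ?_
  rw [hh j, z2_self, zero_mul]

omit [DecidableEq A] in
lemma par_add (h : Fin k × A → ZMod 2) (δ : Fin d → Fin k → ZMod 2) (i : Fin d) :
    par δ i + ∑ j, (∑ a, h (j, a)) * δ i j = ze h δ i := by
  unfold par ze
  rw [← sum_add_distrib]
  exact sum_congr rfl fun j _ => by ring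

/-- the algebra in characteristic two -/
lemma alg (f e p π v x t s c ζ : ZMod 2) (h : f + e * p + π = s) (hf : f = v + e * x + c + t)
    (hζ : π + c = ζ) : s = v + t + e * (p + x) + ζ := by
  subst h hf hζ
  ring

lemma alg1 {e s a : ZMod 2} (h : s = a + e * 1) : e = s + a := by
  revert h; revert e s a; decide

lemma alg2 {ζ s a : ZMod 2} (h : s = a + ζ) : ζ = s + a := by
  revert h; revert ζ s a; decide

omit [DecidableEq A] in
lemma pr_ze {h : Fin k × A → ZMod 2} (hh : ¬ IsOdd h) (F : Fin d → ZMod 2) :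
    pr (fun δ : Fin d → Fin k → ZMod 2 => ze h δ = F) ≤ 1 / 2 ^ d := by
  classical
  unfold IsOdd at hh
  push Not at hh
  obtain ⟨j0, hj0⟩ := hh
  have hc : 1 + ∑ a, h (j0, a) = 1 := by
    rcases z2_cases (∑ a, h (j0, a)) with h1 | h1
    · rw [h1, add_zero]
    · exact absurd h1 hj0
  have hadd : ∀ (G : Fin d → ZMod 2) (δ : Fin d → Fin k → ZMod 2),
      ze h (δ + fun i j => if j = j0 then G i else 0) = ze h δ + G := by
    intro G δ
    funext i
    simp only [ze, Pi.add_apply, mul_add, sum_add_distrib]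
    congr 1
    rw [sum_eq_single j0]
    · rw [if_pos rfl, hc, one_mul]
    · intro j _ hj
      rw [if_neg hj, mul_zero]
    · intro h
      exact absurd (mem_univ _) h
  have heq : ∀ G : Fin d → ZMod 2, pr (fun δ : Fin d → Fin k → ZMod 2 => ze h δ = G) =
      pr (fun δ : Fin d → Fin k → ZMod 2 => ze h δ = F) := by
    intro G
    unfold pr
    rw [← avg_equiv (Equiv.addRight (fun i (j : Fin k) => if j = j0 then F i + G i else 0))
      (fun δ : Fin d → Fin k → ZMod 2 => ind (ze h δ = F))]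
    congr 1
    funext δ
    refine COVE.ind_congr ?_
    rw [Equiv.coe_addRight]
    have h1 := hadd (fun i => F i + G i) δ
    rw [h1]
    constructor
    · intro h2
      rw [h2]
      funext i
      simp only [Pi.add_apply]
      rw [add_comm (F i), ← add_assoc, z2_self, zero_add]
    · intro h2
      funext i
      have h3 := congrFun h2 i
      simp only [Pi.add_apply] at h3
      have h4 : ze h δ i + (F i + G i) + F i + G i = F i + F i + G i := by rw [h3]
      rw [z2_self, zero_add] at h4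
      rw [← h4]
      have h5 := z2_self (F i)
      have h6 := z2_self (G i)
      calc ze h δ i = ze h δ i + (F i + F i) + (G i + G i) := by rw [h5, h6, add_zero, add_zero]
        _ = _ := by ring
  have hsum : ∑ G : Fin d → ZMod 2, pr (fun δ : Fin d → Fin k → ZMod 2 => ze h δ = G) = 1 := by
    unfold pr
    rw [← avg_finset_sum]
    have h5 : (fun δ : Fin d → Fin k → ZMod 2 => ∑ G, ind (ze h δ = G)) = fun _ => (1 : ℝ) := by
      funext δ
      have := COVE.sum_ind_eq (fun _ => (1 : ℝ)) (ze h δ)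
      simpa using this
    rw [h5, avg_const]
  rw [sum_congr rfl fun G _ => heq G, sum_const, card_univ, Fintype.card_fun, ZMod.card,
    Fintype.card_fin, nsmul_eq_mul] at hsum
  push_cast at hsum
  rw [le_div_iff₀ (by positivity), mul_comm]
  exact hsum.le

lemma cov_prod' {Ω Z Y : Type} [Fintype Ω] [Fintype Z] [Fintype Y] {z : Ω → Z} {ξ : ℝ}
    (hz : Cov z ξ) (φ : Z → Y → ℝ) (h : ∀ w y, 0 ≤ φ w y ∧ φ w y ≤ 1) :
    (avg fun y => avg fun w => φ w y) ≤ (avg fun w : Ω × Y => φ (z w.1) w.2) + ξ := by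
  have h1 := hz (fun w => avg (φ w)) fun w => ⟨avg_nonneg fun y => (h w y).1,
    avg_le_const zero_le_one fun y => (h w y).2⟩
  have h2 := (abs_le.1 h1).1
  rw [avg_prod, avg_comm (fun y w => φ w y)]
  linarith

end ROWRG

open ROWRG in
theorem rowRG : ROWRG := by
  intro A _ _ d k _ Ω _ _ z s T ξ t t' N hz ht' hN
  set Y : Type := (Fin k × (A → ZMod 2)) × (Fin (d + 1) → ZMod 2) ×
    (Fin (d + 1) → Fin k → ZMod 2) with hY
  set L := LL z s t' with hL
  -- the events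
  let g1 : (Fin (d + 1) → Fin k × A → ZMod 2) → Y → Fin (d + 1) → Fin k × A → ZMod 2 :=
    fun w y => shift w (loc y.1.1 y.1.2) y.2.1 y.2.2
  let PG : (Fin (d + 1) → Fin k × A → ZMod 2) → Y → Prop := fun w y =>
    Gd (T.f' y.1.1 y.1.2) t (T.f y.1.1 y.1.2) (g1 w y)
  let P1 : (Fin (d + 1) → Fin k × A → ZMod 2) → Y → Prop := fun w y =>
    ∃ q ∈ LT (T.f' y.1.1 y.1.2) t, (q.1, up q.2) ∈ L ∧
      T.f y.1.1 y.1.2 (g1 w y) = ev q.1 (g1 w y) + up q.2 ∧
      T.p y.1.1 y.1.2 (g1 w y) = dt q.1 (loc y.1.1 y.1.2)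
  let P0 : Ω × Y → Prop := fun w =>
    lz (T.f w.2.1.1 w.2.1.2 (g1 (z w.1) w.2)) (T.p w.2.1.1 w.2.1.2 (g1 (z w.1) w.2))
      w.2.2.1 (par w.2.2.2) = s w.1
  let B : (Fin k × A → ZMod 2) × (Fin d → ZMod 2) →
      Ω × ((Fin (d + 1) → ZMod 2) × (Fin (d + 1) → Fin k → ZMod 2)) → Prop := fun q w =>
    (IsOdd q.1 ∧ (q.1, up q.2) ∉ L ∧ s w.1 = ev q.1 (z w.1) + up q.2) ∨
      (IsOdd q.1 ∧ w.2.1 = s w.1 + (ev q.1 (z w.1) + up q.2)) ∨
      (¬ IsOdd q.1 ∧ (ze q.1 w.2.2 = (fun i => s w.1 i + (ev q.1 (z w.1) i + up q.2 i)) ∨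
        ze q.1 w.2.2 = (fun i => s w.1 i + (ev q.1 (z w.1) i + up q.2 i + w.2.1 i))))
  let E : Ω × Y → Prop := fun w => ∃ q ∈ LT (T.f' w.2.1.1 w.2.1.2) t, B q (w.1, w.2.2)
  have h1 : 1 - p2 z s T = pr fun w : Ω × Y => ¬ P0 w := by
    rw [pr_not]
    rfl
  have h2 : pr (fun w : Ω × Y => PG (z w.1) w.2) ≤ pr (fun w : Ω × Y => ¬ P0 w) +
      pr (fun w : Ω × Y => P1 (z w.1) w.2) + pr E := by
    refine le_trans (pr_mono (q := fun w => (¬ P0 w ∨ P1 (z w.1) w.2) ∨ E w) ?_)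
      (le_trans (pr_or_le _ _) (add_le_add_left (pr_or_le _ _) _))
    rintro ⟨ω, ⟨j, α⟩, ε, δ⟩ ⟨q, hq, hs⟩
    by_cases hP0 : P0 (ω, ⟨j, α⟩, ε, δ)
    · have h3 : ∀ i, s ω i = ev q.1 (z ω) i + up q.2 i +
          ε i * (T.p j α (g1 (z ω) (⟨j, α⟩, ε, δ)) + dt q.1 (loc j α)) + ze q.1 δ i := by
        intro i
        have h4 : T.f j α (g1 (z ω) (⟨j, α⟩, ε, δ)) i +
          ε i * T.p j α (g1 (z ω) (⟨j, α⟩, ε, δ)) + par δ i = s ω i := congrFun hP0 i
        have h5 : T.f j α (g1 (z ω) (⟨j, α⟩, ε, δ)) i = ev q.1 (g1 (z ω) (⟨j, α⟩, ε, δ)) i +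
          up q.2 i := congrFun hs i
        have h6 : ev q.1 (g1 (z ω) (⟨j, α⟩, ε, δ)) i = ev q.1 (z ω) i + ε i * dt q.1 (loc j α) +
          ∑ j, (∑ a, q.1 (j, a)) * δ i j := ev_shift _ _ _ _ _ _
        rw [h6] at h5
        exact alg _ _ _ _ _ _ _ _ _ _ h4 h5 (par_add q.1 δ i)
      by_cases hodd : IsOdd q.1
      · rcases z2_cases (T.p j α (g1 (z ω) (⟨j, α⟩, ε, δ)) + dt q.1 (loc j α)) with h5 | h5
        · have h6 : s ω = ev q.1 (z ω) + up q.2 := by
            funext i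
            have h7 := h3 i
            rw [h5, mul_zero, ze_odd hodd, Pi.zero_apply, add_zero, add_zero] at h7
            exact h7
          by_cases hmem : (q.1, up q.2) ∈ L
          · left; right
            exact ⟨q, hq, hmem, hs, z2_eq.1 h5⟩
          · right
            exact ⟨q, hq, Or.inl ⟨hodd, hmem, h6⟩⟩
        · right
          refine ⟨q, hq, Or.inr (Or.inl ⟨hodd, ?_⟩)⟩
          funext i
          have h7 := h3 i
          rw [h5, ze_odd hodd, Pi.zero_apply, add_zero] at h7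
          exact alg1 h7
      · right
        refine ⟨q, hq, Or.inr (Or.inr ⟨hodd, ?_⟩)⟩
        rcases z2_cases (T.p j α (g1 (z ω) (⟨j, α⟩, ε, δ)) + dt q.1 (loc j α)) with h5 | h5
        · left
          funext i
          have h7 := h3 i
          rw [h5, mul_zero, add_zero] at h7
          exact alg2 h7
        · right
          funext i
          have h7 := h3 i
          rw [h5, mul_one] at h7
          exact alg2 h7
    · left; left; exact hP0
  have h3 : pr (fun w : Ω × Y => P1 (z w.1) w.2) ≤ rl T t L + ξ := by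
    refine le_trans (ROWC.cov_prod hz (fun w y => ind (P1 w y)) fun w y =>
      ⟨ind_nonneg _, ind_le_one _⟩) (le_of_eq ?_)
    congr 1
    have h4 : ∀ y : Y, (avg fun w => ind (P1 w y)) =
        avg fun g : Fin (d + 1) → Fin k × A → ZMod 2 =>
        ind (∃ q ∈ LT (T.f' y.1.1 y.1.2) t, (q.1, up q.2) ∈ L ∧
          T.f y.1.1 y.1.2 g = ev q.1 g + up q.2 ∧
          T.p y.1.1 y.1.2 g = dt q.1 (loc y.1.1 y.1.2)) := fun y =>
      ROWC.avg_shift (loc y.1.1 y.1.2) y.2.1 y.2.2 fun g : Fin (d + 1) → Fin k × A → ZMod 2 =>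
        ind (∃ q ∈ LT (T.f' y.1.1 y.1.2) t, (q.1, up q.2) ∈ L ∧
          T.f y.1.1 y.1.2 g = ev q.1 g + up q.2 ∧
          T.p y.1.1 y.1.2 g = dt q.1 (loc y.1.1 y.1.2))
    simp only [h4]
    rw [avg_fst (α := Fin k × (A → ZMod 2))
      (β := (Fin (d + 1) → ZMod 2) × (Fin (d + 1) → Fin k → ZMod 2))
      fun v => avg fun g : Fin (d + 1) → Fin k × A → ZMod 2 =>
        ind (∃ q ∈ LT (T.f' v.1 v.2) t, (q.1, up q.2) ∈ L ∧
          T.f v.1 v.2 g = ev q.1 g + up q.2 ∧ T.p v.1 v.2 g = dt q.1 (loc v.1 v.2)), avg_comm]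
    unfold rl pr
    rw [avg_prod]
  have h4 : rho T t ≤ pr (fun w : Ω × Y => PG (z w.1) w.2) + ξ := by
    refine le_trans (le_of_eq ?_) (cov_prod' hz (fun w y => ind (PG w y)) fun w y =>
      ⟨ind_nonneg _, ind_le_one _⟩)
    have h5 : ∀ y : Y, (avg fun w => ind (PG w y)) =
        avg fun g : Fin (d + 1) → Fin k × A → ZMod 2 =>
        ind (Gd (T.f' y.1.1 y.1.2) t (T.f y.1.1 y.1.2) g) := fun y =>
      ROWC.avg_shift (loc y.1.1 y.1.2) y.2.1 y.2.2 fun g : Fin (d + 1) → Fin k × A → ZMod 2 =>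
        ind (Gd (T.f' y.1.1 y.1.2) t (T.f y.1.1 y.1.2) g)
    simp only [h5]
    rw [avg_fst (α := Fin k × (A → ZMod 2))
      (β := (Fin (d + 1) → ZMod 2) × (Fin (d + 1) → Fin k → ZMod 2))
      fun v => avg fun g : Fin (d + 1) → Fin k × A → ZMod 2 =>
        ind (Gd (T.f' v.1 v.2) t (T.f v.1 v.2) g), avg_comm]
    unfold rho pr
    rw [avg_prod]
  -- the bad events
  have hB : ∀ q : (Fin k × A → ZMod 2) × (Fin d → ZMod 2), pr (B q) ≤ t' + 1 / 2 ^ d := by
    intro q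
    have hc : (0 : ℝ) ≤ 1 / 2 ^ (d + 1) := by positivity
    have hpow : (1 : ℝ) / 2 ^ (d + 1) + 1 / 2 ^ (d + 1) = 1 / 2 ^ d := by
      rw [pow_succ]
      field_simp
      ring
    by_cases hodd : IsOdd q.1
    · have e1 : pr (B q) ≤ pr (fun w : Ω × ((Fin (d + 1) → ZMod 2) ×
            (Fin (d + 1) → Fin k → ZMod 2)) =>
            (q.1, up q.2) ∉ L ∧ s w.1 = ev q.1 (z w.1) + up q.2) +
          pr (fun w : Ω × ((Fin (d + 1) → ZMod 2) × (Fin (d + 1) → Fin k → ZMod 2)) =>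
            w.2.1 = s w.1 + (ev q.1 (z w.1) + up q.2)) := by
        refine le_trans (pr_mono ?_) (pr_or_le _ _)
        rintro w (⟨-, hw⟩ | ⟨-, hw⟩ | ⟨hw, -⟩)
        · exact Or.inl hw
        · exact Or.inr hw
        · exact absurd hodd hw
      have e2 : pr (fun w : Ω × ((Fin (d + 1) → ZMod 2) × (Fin (d + 1) → Fin k → ZMod 2)) =>
            (q.1, up q.2) ∉ L ∧ s w.1 = ev q.1 (z w.1) + up q.2) ≤ t' := by
        have e3 : pr (fun w : Ω × ((Fin (d + 1) → ZMod 2) × (Fin (d + 1) → Fin k → ZMod 2)) =>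
            (q.1, up q.2) ∉ L ∧ s w.1 = ev q.1 (z w.1) + up q.2) =
            pr (fun ω : Ω => (q.1, up q.2) ∉ L ∧ s ω = ev q.1 (z ω) + up q.2) :=
          avg_fst (α := Ω) (β := (Fin (d + 1) → ZMod 2) × (Fin (d + 1) → Fin k → ZMod 2))
            fun ω => ind ((q.1, up q.2) ∉ L ∧ s ω = ev q.1 (z ω) + up q.2)
        rw [e3]
        by_cases hm : (q.1, up q.2) ∈ L
        · have e4 : pr (fun ω : Ω => (q.1, up q.2) ∉ L ∧ s ω = ev q.1 (z ω) + up q.2) = 0 := by
            unfold pr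
            have : (fun ω : Ω => ind ((q.1, up q.2) ∉ L ∧ s ω = ev q.1 (z ω) + up q.2)) =
                fun _ => 0 := by
              funext ω
              exact ind_false fun h => h.1 hm
            rw [this, avg_zero]
          rw [e4]
          exact ht'
        · have e5 : ¬ (IsOdd q.1 ∧ t' ≤ pr fun ω => s ω = ev q.1 (z ω) + up q.2) := by
            intro h
            exact hm (mem_LL.2 h)
          have e6 : (pr fun ω => s ω = ev q.1 (z ω) + up q.2) < t' := by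
            by_contra hcon
            exact e5 ⟨hodd, not_lt.1 hcon⟩
          exact (pr_mono fun ω h => h.2).trans e6.le
      have e7 : pr (fun w : Ω × ((Fin (d + 1) → ZMod 2) × (Fin (d + 1) → Fin k → ZMod 2)) =>
            w.2.1 = s w.1 + (ev q.1 (z w.1) + up q.2)) ≤ 1 / 2 ^ (d + 1) := by
        unfold pr
        rw [avg_prod]
        refine avg_le_const hc fun ω => ?_
        rw [avg_fst (α := Fin (d + 1) → ZMod 2) (β := Fin (d + 1) → Fin k → ZMod 2)
          fun ε => ind (ε = s ω + (ev q.1 (z ω) + up q.2))]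
        exact (ROWC.pr_eps _).le
      linarith
    · have e1 : pr (B q) ≤ pr (fun w : Ω × ((Fin (d + 1) → ZMod 2) ×
            (Fin (d + 1) → Fin k → ZMod 2)) =>
            ze q.1 w.2.2 = fun i => s w.1 i + (ev q.1 (z w.1) i + up q.2 i)) +
          pr (fun w : Ω × ((Fin (d + 1) → ZMod 2) × (Fin (d + 1) → Fin k → ZMod 2)) =>
            ze q.1 w.2.2 = fun i => s w.1 i + (ev q.1 (z w.1) i + up q.2 i + w.2.1 i)) := by
        refine le_trans (pr_mono ?_) (pr_or_le _ _)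
        rintro w (⟨hw, -⟩ | ⟨hw, -⟩ | ⟨-, hw⟩)
        · exact absurd hw hodd
        · exact absurd hw hodd
        · exact hw
      have e2 : ∀ F : Ω → (Fin (d + 1) → ZMod 2) → Fin (d + 1) → ZMod 2,
          pr (fun w : Ω × ((Fin (d + 1) → ZMod 2) × (Fin (d + 1) → Fin k → ZMod 2)) =>
            ze q.1 w.2.2 = F w.1 w.2.1) ≤ 1 / 2 ^ (d + 1) := by
        intro F
        unfold pr
        rw [avg_prod]
        refine avg_le_const hc fun ω => ?_
        rw [avg_prod]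
        exact avg_le_const hc fun ε => pr_ze hodd (F ω ε)
      have e3 := e2 fun ω _ i => s ω i + (ev q.1 (z ω) i + up q.2 i)
      have e4 := e2 fun ω ε i => s ω i + (ev q.1 (z ω) i + up q.2 i + ε i)
      linarith
  have h5 : pr E ≤ N * (t' + 1 / 2 ^ d) := by
    have hb : (0 : ℝ) ≤ t' + 1 / 2 ^ d := by positivity
    have e1 : pr E = avg fun v : Fin k × (A → ZMod 2) =>
        pr fun w : Ω × ((Fin (d + 1) → ZMod 2) × (Fin (d + 1) → Fin k → ZMod 2)) =>
          ∃ q ∈ LT (T.f' v.1 v.2) t, B q w := by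
      unfold pr
      rw [avg_prod]
      have e2 : (fun ω : Ω => avg fun y : Y => ind (E (ω, y))) = fun ω : Ω =>
          avg fun v : Fin k × (A → ZMod 2) =>
          avg fun u : (Fin (d + 1) → ZMod 2) × (Fin (d + 1) → Fin k → ZMod 2) =>
            ind (∃ q ∈ LT (T.f' v.1 v.2) t, B q (ω, u)) := by
        funext ω
        exact avg_prod (α := Fin k × (A → ZMod 2))
          (β := (Fin (d + 1) → ZMod 2) × (Fin (d + 1) → Fin k → ZMod 2)) _
      rw [e2, avg_comm]
      congr 1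
      funext v
      rw [avg_prod]
    rw [e1]
    have hN0 : 0 ≤ N := (Nat.cast_nonneg _).trans (hN 0 0)
    refine avg_le_const (mul_nonneg hN0 hb) fun v => ?_
    calc (pr fun w : Ω × ((Fin (d + 1) → ZMod 2) × (Fin (d + 1) → Fin k → ZMod 2)) =>
          ∃ q ∈ LT (T.f' v.1 v.2) t, B q w)
        ≤ ∑ q ∈ LT (T.f' v.1 v.2) t, pr (B q) := pr_exists_le _ _
      _ ≤ ∑ _q ∈ LT (T.f' v.1 v.2) t, (t' + 1 / 2 ^ d) := sum_le_sum fun q _ => hB q
      _ = ((LT (T.f' v.1 v.2) t).card : ℝ) * (t' + 1 / 2 ^ d) := by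
          rw [sum_const, nsmul_eq_mul]
      _ ≤ N * (t' + 1 / 2 ^ d) := mul_le_mul_of_nonneg_right (hN v.1 v.2) hb
  rw [h1]
  linarith

end Pool.Agent.MP_ec946a.SF
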