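import Mathlib
import Pool.Agent.Lib.SF.Props

/-!
# Row RT1: the edges R - T for one pair
-/

set_option autoImplicit false

namespace Pool.Agent.MP_ec946a.SF

open Finset Pool.Agent.MP_ec946a.LR Pool.Agent.MP_ec946a.SE

namespace RT1

variable {S : Type} [Fintype S] [DecidableEq S] {d : ℕ}

omit [Fintype S] [DecidableEq S] in
lemma drp_cons (ε : Fin d → ZMod 2) (x : S → ZMod 2) (z : Fin d → S → ZMod 2) :
    drp ε (Fin.cons (α := fun _ => S → ZMod 2) x z) = z + tn ε x := by
  funext i s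
  simp [drp, tn]

/-- `drp ε g` is uniform -/
lemma avg_drp (ε : Fin d → ZMod 2) (f : (Fin d → S → ZMod 2) → ℝ) :
    (avg fun g : Fin (d + 1) → S → ZMod 2 => f (drp ε g)) = avg f := by
  rw [← avg_equiv (Fin.consEquiv fun _ : Fin (d + 1) => S → ZMod 2)
    fun g : Fin (d + 1) → S → ZMod 2 => f (drp ε g)]
  rw [avg_prod]
  have h1 : ∀ x : S → ZMod 2, (avg fun z : Fin d → S → ZMod 2 =>
      f (drp ε ((Fin.consEquiv fun _ : Fin (d + 1) => S → ZMod 2) (x, z)))) = avg f := by
    intro x
    rw [← avg_equiv (Equiv.addRight (tn ε x)) f]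
    refine congrArg avg (funext fun z => ?_)
    change f (drp ε (Fin.cons (α := fun _ => S → ZMod 2) x z)) = _
    rw [drp_cons]
    rfl
  simp only [h1]
  exact avg_const _

omit [DecidableEq S] in
lemma ev_drp (h : S → ZMod 2) (ε : Fin d → ZMod 2) (g : Fin (d + 1) → S → ZMod 2) :
    ev h (drp ε g) = drl ε (ev h g) := by
  funext i
  unfold ev drp drl
  rw [← dt_smul_right]
  exact dt_add_right h (g i.succ) fun s => ε i * g 0 s

omit [DecidableEq S] in
lemma drl_up (h : S → ZMod 2) (τ ε : Fin d → ZMod 2) (g : Fin (d + 1) → S → ZMod 2) :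
    drl ε (ev h g + up τ) = ev h (drp ε g) + τ := by
  rw [ev_drp]
  funext i
  simp only [drl, up, Pi.add_apply, Fin.cons_succ, Fin.cons_zero, add_zero]
  ring

/-- two different vectors of `d + 1` bits have the same image for at most one `ε` -/
lemma pr_drl {f g : Fin (d + 1) → ZMod 2} (h : f ≠ g) :
    (pr fun ε => drl ε f = drl ε g) ≤ 1 / 2 ^ d := by
  have h1 : ∀ ε ε' : Fin d → ZMod 2, drl ε f = drl ε g → drl ε' f = drl ε' g → ε = ε' := by
    intro ε ε' h2 h3
    by_cases h0 : f 0 = g 0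
    · exfalso
      apply h
      funext i
      refine Fin.cases h0 (fun i => ?_) i
      have h4 := congrFun h2 i
      unfold drl at h4
      rw [h0] at h4
      exact add_right_cancel h4
    · funext i
      have h4 := congrFun h2 i
      have h5 := congrFun h3 i
      unfold drl at h4 h5
      generalize f i.succ = a at h4 h5
      generalize g i.succ = b at h4 h5
      generalize ε i = e at h4 h5 ⊢
      generalize ε' i = e' at h4 h5 ⊢
      generalize f 0 = u at h0 h4 h5
      generalize g 0 = v at h0 h4 h5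
      revert h0 h4 h5
      revert a b e e' u v
      decide
  rw [pr_eq_card]
  have h7 : (Fintype.card (Fin d → ZMod 2) : ℝ) = 2 ^ d := by
    rw [Fintype.card_fun, ZMod.card, Fintype.card_fin]
    push_cast
    rfl
  rw [h7]
  refine div_le_div_of_nonneg_right ?_ (by positivity)
  rw [Nat.cast_le_one, card_le_one]
  intro ε hε ε' hε'
  simp only [mem_filter, mem_univ, true_and] at hε hε'
  exact h1 ε ε' hε hε'

/-- unlisted -/
def Un (f' : (Fin d → S → ZMod 2) → Fin d → ZMod 2) (t : ℝ) (z : Fin d → S → ZMod 2) : Prop :=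
  ∀ q ∈ LT f' t, f' z ≠ ev q.1 z + q.2

/-- the fraction of the satisfied unlisted neighbours -/
noncomputable def bb (f' : (Fin d → S → ZMod 2) → Fin d → ZMod 2)
    (F : (Fin (d + 1) → S → ZMod 2) → Fin (d + 1) → ZMod 2) (t : ℝ)
    (g : Fin (d + 1) → S → ZMod 2) : ℝ :=
  pr fun ε => Un f' t (drp ε g) ∧ f' (drp ε g) = drl ε (F g)

lemma step1 (f' : (Fin d → S → ZMod 2) → Fin d → ZMod 2)
    (F : (Fin (d + 1) → S → ZMod 2) → Fin (d + 1) → ZMod 2) (t N : ℝ)
    (hN : ((LT f' t).card : ℝ) ≤ N) :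
    (pr fun w : (Fin (d + 1) → S → ZMod 2) × (Fin d → ZMod 2) =>
      ¬ Gd f' t F w.1 ∧ f' (drp w.2 w.1) = drl w.2 (F w.1)) ≤
      (avg fun g => ind (¬ Gd f' t F g) * bb f' F t g) + N / 2 ^ d := by
  have hN0 : 0 ≤ N / 2 ^ d := by
    have : (0 : ℝ) ≤ N := (Nat.cast_nonneg _).trans hN
    positivity
  unfold pr
  rw [avg_prod]
  have h1 : ∀ g : Fin (d + 1) → S → ZMod 2, (avg fun ε : Fin d → ZMod 2 =>
      ind (¬ Gd f' t F g ∧ f' (drp ε g) = drl ε (F g))) ≤
      ind (¬ Gd f' t F g) * bb f' F t g + N / 2 ^ d := by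
    intro g
    by_cases hg : Gd f' t F g
    · have h2 : (fun ε : Fin d → ZMod 2 => ind (¬ Gd f' t F g ∧ f' (drp ε g) = drl ε (F g))) =
          fun _ => 0 := by
        funext ε
        exact ind_false fun h => h.1 hg
      rw [h2, avg_zero, ind_false (not_not.2 hg), zero_mul, zero_add]
      exact hN0
    · rw [ind_true hg, one_mul]
      have h3 : (avg fun ε : Fin d → ZMod 2 =>
          ind (¬ Gd f' t F g ∧ f' (drp ε g) = drl ε (F g))) ≤
          bb f' F t g + pr fun ε => ∃ q ∈ LT f' t, drl ε (F g) = drl ε (ev q.1 g + up q.2) := by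
        refine le_trans (avg_mono fun ε => ind_mono fun h => ?_) (pr_or_le
          (fun ε => Un f' t (drp ε g) ∧ f' (drp ε g) = drl ε (F g))
          (fun ε => ∃ q ∈ LT f' t, drl ε (F g) = drl ε (ev q.1 g + up q.2)))
        by_cases hu : Un f' t (drp ε g)
        · exact Or.inl ⟨hu, h.2⟩
        · right
          unfold Un at hu
          push Not at hu
          obtain ⟨q, hq, h4⟩ := hu
          refine ⟨q, hq, ?_⟩
          rw [drl_up, ← h4, h.2]
      have h5 : (pr fun ε : Fin d → ZMod 2 => ∃ q ∈ LT f' t,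
          drl ε (F g) = drl ε (ev q.1 g + up q.2)) ≤ N / 2 ^ d := by
        refine (pr_exists_le _ _).trans ?_
        calc ∑ q ∈ LT f' t, (pr fun ε => drl ε (F g) = drl ε (ev q.1 g + up q.2)) ≤
            ∑ _q ∈ LT f' t, (1 : ℝ) / 2 ^ d := sum_le_sum fun q hq => pr_drl fun h =>
              hg ⟨q, hq, h⟩
          _ = (LT f' t).card * (1 / 2 ^ d) := by rw [sum_const, nsmul_eq_mul]
          _ ≤ N * (1 / 2 ^ d) := mul_le_mul_of_nonneg_right hN (by positivity)
          _ = N / 2 ^ d := by ring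
      linarith
  refine (avg_mono h1).trans (le_of_eq ?_)
  rw [avg_add, avg_const]

lemma step3 (f' : (Fin d → S → ZMod 2) → Fin d → ZMod 2)
    (F : (Fin (d + 1) → S → ZMod 2) → Fin (d + 1) → ZMod 2) (t : ℝ) :
    pr (Un f' t) + (pr fun w : (Fin (d + 1) → S → ZMod 2) × (Fin d → ZMod 2) =>
      Gd f' t F w.1 ∧ f' (drp w.2 w.1) = drl w.2 (F w.1)) ≤ 1 := by
  have h1 : pr (Un f' t) = pr fun w : (Fin (d + 1) → S → ZMod 2) × (Fin d → ZMod 2) =>
      Un f' t (drp w.2 w.1) := by
    unfold pr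
    rw [avg_prod, avg_comm]
    simp only [avg_drp _ fun z => ind (Un f' t z)]
    rw [avg_const]
  rw [h1]
  unfold pr
  rw [← avg_add]
  refine avg_le_const zero_le_one fun w => ?_
  by_cases h : Un f' t (drp w.2 w.1)
  · rw [ind_true h, ind_false, add_zero]
    rintro ⟨⟨q, hq, h2⟩, h3⟩
    refine h q hq ?_
    rw [h3, h2, drl_up]
  · rw [ind_false h, zero_add]
    exact ind_le_one _

end RT1

open RT1 in
theorem rt1 (h1 : SUBL) (h2 : BSQ) : RT1 := by
  intro S _ _ d f' F t N ht hN
  have ht0 : 0 ≤ t := le_trans (by positivity) ht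
  have e1 := step1 f' F t N hN
  have e3 := step3 f' F t
  obtain ⟨ρ, hρ⟩ : ∃ ρ, ρ = pr (Gd f' t F) := ⟨_, rfl⟩
  obtain ⟨G, hG⟩ : ∃ G, G = pr fun w : (Fin (d + 1) → S → ZMod 2) × (Fin d → ZMod 2) =>
      Gd f' t F w.1 ∧ f' (drp w.2 w.1) = drl w.2 (F w.1) := ⟨_, rfl⟩
  rw [← hG] at e3
  rw [← hρ, ← hG]
  have hGρ : G ≤ ρ := by
    rw [hG, hρ]
    have h3 : pr (Gd f' t F) = pr fun w : (Fin (d + 1) → S → ZMod 2) × (Fin d → ZMod 2) =>
        Gd f' t F w.1 := (avg_fst (β := Fin d → ZMod 2) fun g => ind (Gd f' t F g)).symm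
    rw [h3]
    exact pr_mono fun w hw => hw.1
  have hρ1 : ρ ≤ 1 := by
    rw [hρ]
    exact pr_le_one _
  -- the law of the unlisted part
  have hW : (∑ c ∈ univ.erase 0, ∑ h, ac (det f' (Un f' t)) c h ^ 2) / 2 ^ d ≤
      √(√(t ^ 2 + 14 / 2 ^ d)) := by
    refine h1 S d (det f' (Un f' t)) (fun z s => ind_nonneg _) (fun z => ?_) t ht fun q => ?_
    · calc ∑ s, det f' (Un f' t) z s ≤ ∑ s, ind (s = f' z) :=
            sum_le_sum fun s _ => ind_mono fun h => h.2
        _ = 1 := by
            rw [Finset.sum_eq_single (f' z)]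
            · exact ind_true rfl
            · intro s _ hs
              exact ind_false hs
            · intro h
              exact absurd (mem_univ _) h
    · by_cases hq : q ∈ LT f' t
      · have h4 : ms (det f' (Un f' t)) q = 0 := by
          unfold ms
          rw [← avg_zero (α := Fin d → S → ZMod 2)]
          refine congrArg avg (funext fun z => ?_)
          refine ind_false fun h => ?_
          exact h.1 q hq h.2.symm
        rw [h4]
        exact ht0
      · rw [mem_LT] at hq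
        push Not at hq
        refine le_trans (avg_mono fun z => ind_mono fun h => ?_) hq.le
        exact h.2.symm
  have hB : (avg fun g => bb f' F t g ^ 2) ≤ ((1 - G) + wt d t) / 2 := by
    have h5 := h2 S d f' F (Un f' t)
    have h6 : (avg fun g => bb f' F t g ^ 2) = avg fun g =>
      (pr fun ε => Un f' t (drp ε g) ∧ f' (drp ε g) = drl ε (F g)) ^ 2 := rfl
    rw [h6]
    refine h5.trans ?_
    unfold wt
    have h7 : (1 : ℝ) / 2 ^ d = (2 / 2 ^ d) / 2 := by ring
    rw [h7]
    linarith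
  have hw0 : 0 ≤ wt d t := by
    unfold wt
    positivity
  -- Cauchy - Schwarz
  have hC : (avg fun g => ind (¬ Gd f' t F g) * bb f' F t g) ≤
      √(1 / 2) * ((1 - ρ) + ((ρ - G) + wt d t) / 2) := by
    have h8 := avg_mul_sq_le (fun g => ind (¬ Gd f' t F g)) (bb f' F t)
    have h9 : (avg fun g => ind (¬ Gd f' t F g) ^ 2) = 1 - ρ := by
      have h10 : ∀ g, ind (¬ Gd f' t F g) ^ 2 = ind (¬ Gd f' t F g) := by
        intro g
        by_cases hg : Gd f' t F g
        · rw [ind_false (not_not.2 hg)]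
          norm_num
        · rw [ind_true hg]
          norm_num
      simp only [h10]
      rw [hρ]
      exact pr_not _
    rw [h9] at h8
    have h11 : (avg fun g => ind (¬ Gd f' t F g) * bb f' F t g) ^ 2 ≤
        (√(1 / 2) * ((1 - ρ) + ((ρ - G) + wt d t) / 2)) ^ 2 := by
      refine h8.trans ?_
      rw [mul_pow, Real.sq_sqrt (by norm_num)]
      have h12 : (1 - ρ) * (avg fun g => bb f' F t g ^ 2) ≤
          (1 - ρ) * (((1 - G) + wt d t) / 2) :=
        mul_le_mul_of_nonneg_left hB (by linarith)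
      nlinarith [sq_nonneg ((ρ - G) + wt d t)]
    exact le_of_sq_le_sq h11 (by
      have : 0 ≤ √(1 / 2 : ℝ) := Real.sqrt_nonneg _
      have h13 : 0 ≤ (1 - ρ) + ((ρ - G) + wt d t) / 2 := by linarith
      positivity)
  linarith

end Pool.Agent.MP_ec946a.SF
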