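import Mathlib
import Pool.Agent.Lib.SF.Props

/-!
# The edges R - T and the vertices T (rows RTJ and ROWP)
-/

set_option autoImplicit false
set_option linter.unusedSectionVars false

namespace Pool.Agent.MP_ec946a.SF

open Finset Pool.Agent.MP_ec946a.LR Pool.Agent.MP_ec946a.SE

namespace RTJ

section one

variable {S : Type} [Fintype S] [DecidableEq S] {d : ℕ}

/-- `g ↦ drp ε g` maps the uniform law to the uniform law. -/
lemma avg_drp (ε : Fin d → ZMod 2) (φ : (Fin d → S → ZMod 2) → ℝ) :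
    (avg fun g : Fin (d + 1) → S → ZMod 2 => φ (drp ε g)) = avg φ := by
  have h1 := avg_equiv (Fin.consEquiv fun _ : Fin (d + 1) => (S → ZMod 2))
    fun g : Fin (d + 1) → S → ZMod 2 => φ (drp ε g)
  rw [← h1, avg_prod]
  have h2 : ∀ x : S → ZMod 2, (avg fun y : Fin d → S → ZMod 2 =>
      φ (drp ε ((Fin.consEquiv fun _ : Fin (d + 1) => (S → ZMod 2)) (x, y)))) = avg φ := by
    intro x
    have h3 := avg_equiv (Equiv.addRight (tn ε x)) φ
    rw [← h3]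
    refine congrArg avg (funext fun y => congrArg φ ?_)
    rfl
  have h4 : (avg fun x : S → ZMod 2 => avg fun y : Fin d → S → ZMod 2 =>
      φ (drp ε ((Fin.consEquiv fun _ : Fin (d + 1) => (S → ZMod 2)) (x, y)))) =
      avg fun _ : S → ZMod 2 => avg φ := congrArg avg (funext h2)
  exact h4.trans (avg_const _)

/-- The values of `ev` and `up` under the maps. -/
lemma drl_ev (ε : Fin d → ZMod 2) (h : S → ZMod 2) (τ : Fin d → ZMod 2)
    (g : Fin (d + 1) → S → ZMod 2) : drl ε (ev h g + up τ) = ev h (drp ε g) + τ := by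
  funext i
  have h1 : drp ε g i = g i.succ + fun s => ε i * g 0 s := rfl
  have h2 : ev h (drp ε g) i = dt h (g i.succ) + ε i * dt h (g 0) := by
    show dt h (drp ε g i) = _
    rw [h1, dt_add_right, dt_smul_right]
  have h3 : (ev h g + up τ) i.succ = dt h (g i.succ) + τ i := rfl
  have h4 : (ev h g + up τ) 0 = dt h (g 0) := by
    show dt h (g 0) + 0 = _
    rw [add_zero]
  show (ev h g + up τ) i.succ + ε i * (ev h g + up τ) 0 = ev h (drp ε g) i + τ i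
  rw [h2, h3, h4]
  ring

end one

end RTJ

/-- The edges R - T. -/
theorem rtj (h : RT1) : RTJ := by
  intro A _ _ d k _ T t N ht hN
  -- the pairs `(j, α)` first
  have e1 : p1 T = avg fun v : Fin k × (A → ZMod 2) =>
      pr fun w : (Fin (d + 1) → Fin k × A → ZMod 2) × (Fin d → ZMod 2) =>
        Sat1 T v.1 v.2 w.1 w.2 := by
    unfold p1 pr
    rw [avg_prod]
    simp only [avg_prod (β := Fin d → ZMod 2)]
    rw [avg_comm]
  have e2 : gs T t = avg fun v : Fin k × (A → ZMod 2) =>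
      pr fun w : (Fin (d + 1) → Fin k × A → ZMod 2) × (Fin d → ZMod 2) =>
        Gd (T.f' v.1 v.2) t (T.f v.1 v.2) w.1 ∧ Sat1 T v.1 v.2 w.1 w.2 := by
    unfold gs pr
    rw [avg_prod]
    simp only [avg_prod (β := Fin d → ZMod 2)]
    rw [avg_comm]
  have e3 : rho T t = avg fun v : Fin k × (A → ZMod 2) =>
      pr (Gd (T.f' v.1 v.2) t (T.f v.1 v.2)) := by
    unfold rho pr
    rw [avg_prod, avg_comm]
  have key : ∀ v : Fin k × (A → ZMod 2),
      (pr fun w : (Fin (d + 1) → Fin k × A → ZMod 2) × (Fin d → ZMod 2) =>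
        Sat1 T v.1 v.2 w.1 w.2) ≤
      (pr fun w : (Fin (d + 1) → Fin k × A → ZMod 2) × (Fin d → ZMod 2) =>
        Gd (T.f' v.1 v.2) t (T.f v.1 v.2) w.1 ∧ Sat1 T v.1 v.2 w.1 w.2) +
      √(1 / 2) * ((1 - pr (Gd (T.f' v.1 v.2) t (T.f v.1 v.2))) +
        ((pr (Gd (T.f' v.1 v.2) t (T.f v.1 v.2)) -
          pr fun w : (Fin (d + 1) → Fin k × A → ZMod 2) × (Fin d → ZMod 2) =>
            Gd (T.f' v.1 v.2) t (T.f v.1 v.2) w.1 ∧ Sat1 T v.1 v.2 w.1 w.2) + wt d t) / 2) +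
      N / 2 ^ d := by
    intro v
    have h1 := h (Fin k × A) d (T.f' v.1 v.2) (T.f v.1 v.2) t N ht (hN v.1 v.2)
    have h2 : (pr fun w : (Fin (d + 1) → Fin k × A → ZMod 2) × (Fin d → ZMod 2) =>
        Sat1 T v.1 v.2 w.1 w.2) ≤
      (pr fun w : (Fin (d + 1) → Fin k × A → ZMod 2) × (Fin d → ZMod 2) =>
        Gd (T.f' v.1 v.2) t (T.f v.1 v.2) w.1 ∧ Sat1 T v.1 v.2 w.1 w.2) +
      pr fun w : (Fin (d + 1) → Fin k × A → ZMod 2) × (Fin d → ZMod 2) =>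
        ¬ Gd (T.f' v.1 v.2) t (T.f v.1 v.2) w.1 ∧
          T.f' v.1 v.2 (drp w.2 w.1) = drl w.2 (T.f v.1 v.2 w.1) := by
      refine le_trans (pr_mono fun w hw => ?_) (pr_or_le _ _)
      by_cases hG : Gd (T.f' v.1 v.2) t (T.f v.1 v.2) w.1
      · exact Or.inl ⟨hG, hw⟩
      · exact Or.inr ⟨hG, hw.1⟩
    have h3 : (pr fun w : (Fin (d + 1) → Fin k × A → ZMod 2) × (Fin d → ZMod 2) =>
        Gd (T.f' v.1 v.2) t (T.f v.1 v.2) w.1 ∧ Sat1 T v.1 v.2 w.1 w.2) ≤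
      pr fun w : (Fin (d + 1) → Fin k × A → ZMod 2) × (Fin d → ZMod 2) =>
        Gd (T.f' v.1 v.2) t (T.f v.1 v.2) w.1 ∧
          T.f' v.1 v.2 (drp w.2 w.1) = drl w.2 (T.f v.1 v.2 w.1) :=
      pr_mono fun w hw => ⟨hw.1, hw.2.1⟩
    have h4 : 0 ≤ √(1 / 2 : ℝ) := Real.sqrt_nonneg _
    have h5 : √(1 / 2) * ((1 - pr (Gd (T.f' v.1 v.2) t (T.f v.1 v.2))) +
        ((pr (Gd (T.f' v.1 v.2) t (T.f v.1 v.2)) -
          pr fun w : (Fin (d + 1) → Fin k × A → ZMod 2) × (Fin d → ZMod 2) =>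
            Gd (T.f' v.1 v.2) t (T.f v.1 v.2) w.1 ∧
              T.f' v.1 v.2 (drp w.2 w.1) = drl w.2 (T.f v.1 v.2 w.1)) + wt d t) / 2) ≤
        √(1 / 2) * ((1 - pr (Gd (T.f' v.1 v.2) t (T.f v.1 v.2))) +
        ((pr (Gd (T.f' v.1 v.2) t (T.f v.1 v.2)) -
          pr fun w : (Fin (d + 1) → Fin k × A → ZMod 2) × (Fin d → ZMod 2) =>
            Gd (T.f' v.1 v.2) t (T.f v.1 v.2) w.1 ∧ Sat1 T v.1 v.2 w.1 w.2) + wt d t) / 2) :=
      mul_le_mul_of_nonneg_left (by linarith) h4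
    linarith
  have h6 := avg_mono key
  rw [← e1] at h6
  refine h6.trans (le_of_eq ?_)
  rw [avg_add, avg_add, avg_const, ← e2, avg_mul_left, avg_add, avg_sub, avg_const, ← e3]
  have e4 : (avg fun v : Fin k × (A → ZMod 2) => ((pr (Gd (T.f' v.1 v.2) t (T.f v.1 v.2)) -
      pr fun w : (Fin (d + 1) → Fin k × A → ZMod 2) × (Fin d → ZMod 2) =>
        Gd (T.f' v.1 v.2) t (T.f v.1 v.2) w.1 ∧ Sat1 T v.1 v.2 w.1 w.2) + wt d t) / 2) =
      ((rho T t - gs T t) + wt d t) / 2 := by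
    simp only [div_eq_mul_inv]
    rw [avg_mul_right, avg_add, avg_sub, avg_const, ← e2, ← e3]
  rw [e4]

/-- The vertices T. -/
theorem rowP : ROWP := by
  intro A _ _ d k _ T t L
  -- both sides as averages over `(g, (j, α), ε)`
  have e1 : rl T t L = avg fun w : (Fin (d + 1) → Fin k × A → ZMod 2) ×
      (Fin k × (A → ZMod 2)) × (Fin d → ZMod 2) =>
      ind (∃ q ∈ LT (T.f' w.2.1.1 w.2.1.2) t, (q.1, up q.2) ∈ L ∧
      T.f w.2.1.1 w.2.1.2 w.1 = ev q.1 w.1 + up q.2 ∧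
      T.p w.2.1.1 w.2.1.2 w.1 = dt q.1 (loc w.2.1.1 w.2.1.2)) := by
    unfold rl pr
    rw [avg_prod, avg_prod]
    refine congrArg avg (funext fun g => ?_)
    rw [avg_fst (β := Fin d → ZMod 2) (fun v : Fin k × (A → ZMod 2) =>
      ind (∃ q ∈ LT (T.f' v.1 v.2) t, (q.1, up q.2) ∈ L ∧
      T.f v.1 v.2 g = ev q.1 g + up q.2 ∧ T.p v.1 v.2 g = dt q.1 (loc v.1 v.2)))]
  have e2 : rho T t = avg fun w : (Fin (d + 1) → Fin k × A → ZMod 2) ×
      (Fin k × (A → ZMod 2)) × (Fin d → ZMod 2) =>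
      ind (Gd (T.f' w.2.1.1 w.2.1.2) t (T.f w.2.1.1 w.2.1.2) w.1) := by
    unfold rho pr
    rw [avg_prod, avg_prod]
    refine congrArg avg (funext fun g => ?_)
    rw [avg_fst (β := Fin d → ZMod 2) (fun v : Fin k × (A → ZMod 2) =>
      ind (Gd (T.f' v.1 v.2) t (T.f v.1 v.2) g))]
  have e3 : PT T.toStr (L0 L) = avg fun w : (Fin (d + 1) → Fin k × A → ZMod 2) ×
      (Fin k × (A → ZMod 2)) × (Fin d → ZMod 2) =>
      ind (∃ q ∈ L0 L, T.f' w.2.1.1 w.2.1.2 (drp w.2.2 w.1) = ev q.1 (drp w.2.2 w.1) + q.2 ∧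
        T.p' w.2.1.1 w.2.1.2 (drp w.2.2 w.1) = dt q.1 (loc w.2.1.1 w.2.1.2)) := by
    have e4 : PT T.toStr (L0 L) = avg fun v : (Fin k × (A → ZMod 2)) × (Fin d → ZMod 2) =>
        avg fun g : Fin (d + 1) → Fin k × A → ZMod 2 =>
        ind (∃ q ∈ L0 L, T.f' v.1.1 v.1.2 (drp v.2 g) = ev q.1 (drp v.2 g) + q.2 ∧
          T.p' v.1.1 v.1.2 (drp v.2 g) = dt q.1 (loc v.1.1 v.1.2)) := by
      unfold PT pr
      rw [avg_prod, avg_comm, avg_prod (β := Fin d → ZMod 2)]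
      refine congrArg avg (funext fun v => ?_)
      have h1 : ∀ ε : Fin d → ZMod 2, (avg fun g : Fin (d + 1) → Fin k × A → ZMod 2 =>
          ind (∃ q ∈ L0 L, T.f' v.1 v.2 (drp ε g) = ev q.1 (drp ε g) + q.2 ∧
            T.p' v.1 v.2 (drp ε g) = dt q.1 (loc v.1 v.2))) =
          avg fun z : Fin d → Fin k × A → ZMod 2 =>
          ind (∃ q ∈ L0 L, T.f' v.1 v.2 z = ev q.1 z + q.2 ∧
            T.p' v.1 v.2 z = dt q.1 (loc v.1 v.2)) := fun ε =>
        RTJ.avg_drp ε fun z => ind (∃ q ∈ L0 L, T.f' v.1 v.2 z = ev q.1 z + q.2 ∧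
            T.p' v.1 v.2 z = dt q.1 (loc v.1 v.2))
      simp only [h1]
      exact (avg_const _).symm
    rw [e4, avg_comm, avg_prod (α := Fin (d + 1) → Fin k × A → ZMod 2)]
  rw [e1, e2, e3]
  unfold gs pr
  rw [← avg_sub, ← avg_add]
  refine avg_mono fun w => ?_
  obtain ⟨g, ⟨j, α⟩, ε⟩ := w
  simp only
  by_cases hE : ∃ q ∈ LT (T.f' j α) t, (q.1, up q.2) ∈ L ∧
      T.f j α g = ev q.1 g + up q.2 ∧ T.p j α g = dt q.1 (loc j α)
  · rw [ind_true hE]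
    obtain ⟨q, hq, hqL, hqf, hqp⟩ := hE
    have hG : Gd (T.f' j α) t (T.f j α) g := ⟨q, hq, hqf⟩
    rw [ind_true hG]
    by_cases hS : Sat1 T j α g ε
    · have h1 : ∃ q ∈ L0 L, T.f' j α (drp ε g) = ev q.1 (drp ε g) + q.2 ∧
          T.p' j α (drp ε g) = dt q.1 (loc j α) := by
        refine ⟨q, mem_L0.2 hqL, ?_, ?_⟩
        · rw [hS.1, hqf, RTJ.drl_ev]
        · rw [hS.2, hqp]
      rw [ind_true h1]
      have := ind_le_one (Gd (T.f' j α) t (T.f j α) g ∧ Sat1 T j α g ε)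
      linarith
    · rw [ind_false fun h : Gd (T.f' j α) t (T.f j α) g ∧ Sat1 T j α g ε => hS h.2]
      have := ind_nonneg (∃ q ∈ L0 L, T.f' j α (drp ε g) = ev q.1 (drp ε g) + q.2 ∧
          T.p' j α (drp ε g) = dt q.1 (loc j α))
      linarith
  · rw [ind_false hE]
    have h1 : ind (Gd (T.f' j α) t (T.f j α) g ∧ Sat1 T j α g ε) ≤
        ind (Gd (T.f' j α) t (T.f j α) g) := ind_mono fun h => h.1
    have := ind_nonneg (∃ q ∈ L0 L, T.f' j α (drp ε g) = ev q.1 (drp ε g) + q.2 ∧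
          T.p' j α (drp ε g) = dt q.1 (loc j α))
    linarith

end Pool.Agent.MP_ec946a.SF
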