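import Mathlib
import Pool.Agent.Lib.SF.Props

/-!
# The value of the game and the three fractions
-/

set_option autoImplicit false

namespace Pool.Agent.MP_ec946a.SF

open Finset Pool.Agent.MP_ec946a.LR Pool.Agent.MP_ec946a.SE

namespace VALUE2

lemma avg_of_equiv {α β γ : Type} [Fintype α] [Fintype β] [Fintype γ] [Nonempty γ]
    (e : α ≃ β × γ) (f : β → ℝ) : (avg fun a => f (e a).1) = avg f := by
  rw [avg_equiv e fun p => f p.1]
  exact avg_fst f

lemma pr_eq_natCard {α : Type} [Fintype α] (p : α → Prop) :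
    (Nat.card {x // p x} : ℝ) / (Nat.card α : ℝ) = pr p := by
  classical
  rw [pr_eq_card, Nat.card_eq_fintype_card, Nat.card_eq_fintype_card, Fintype.card_subtype]

/-- the three types -/
def three (a b c : ℝ) (m : ℕ) : ℝ :=
  if m < 17 then a else if m < 22 then b else c

lemma sum_three (a b c : ℝ) : (∑ m : Fin 32, three a b c m) = 17 * a + 5 * b + 10 * c := by
  rw [Fin.sum_univ_eq_sum_range (fun i => three a b c i) 32]
  simp only [three, sum_range_succ, sum_range_zero]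
  norm_num
  ring

variable {A B : Type} [Fintype A] [Fintype B] [DecidableEq A] [DecidableEq B] {d k n : ℕ}

abbrev Xs (A : Type) (d k : ℕ) : Type := Fin d → Fin k × A → ZMod 2
abbrev Ys (A B : Type) (d k : ℕ) : Type := Fin (d + 1) → Fin k × (A ⊕ B) → ZMod 2

/-- the edges R - T -/
def eq1 (I : LabelCover A B) (d k n : ℕ) : Data I d k n ≃
    ((Fin k → I.E) × Xs A (d + 1) k × (Fin k × (A → ZMod 2)) × (Fin d → ZMod 2)) ×
      (ZMod 2 × (Fin k → Fin n) × Ys A B d k × (Fin (d + 1) → ZMod 2) ×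
        (Fin (d + 1) → Fin k → ZMod 2) × (A → ZMod 2)) where
  toFun t := ((t.e, t.g, (t.j, t.α), fun i => t.ε i.succ), (t.ε 0, t.b, t.y, t.ε', t.δ, t.β))
  invFun t := ⟨t.1.1, t.2.2.1, t.2.2.2.1, t.1.2.1, Fin.cons t.2.1 t.1.2.2.2, t.2.2.2.2.1,
    t.2.2.2.2.2.1, t.1.2.2.1.1, t.1.2.2.1.2, t.2.2.2.2.2.2⟩
  left_inv t := by
    obtain ⟨e, b, y, g, ε, ε', δ, j, α, β⟩ := t
    have h : (Fin.cons (ε 0) fun i => ε i.succ : Fin (d + 1) → ZMod 2) = ε :=
      Fin.cons_self_tail ε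
    simp only [h]
  right_inv t := by
    obtain ⟨⟨e, g, ⟨j, α⟩, ε⟩, ε0, b, y, ε', δ, β⟩ := t
    simp only [Fin.cons_succ, Fin.cons_zero]

/-- the edges R - G -/
def eq2 (I : LabelCover A B) (d k n : ℕ) : Data I d k n ≃
    ((Fin k → I.E) × ((Fin k → Fin n) × Ys A B d k) × (Fin k × (A → ZMod 2)) ×
      (Fin (d + 1) → ZMod 2) × (Fin (d + 1) → Fin k → ZMod 2)) ×
      (Xs A (d + 1) k × (Fin (d + 1) → ZMod 2) × (A → ZMod 2)) where
  toFun t := ((t.e, (t.b, t.y), (t.j, t.α), t.ε, t.δ), (t.g, t.ε', t.β))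
  invFun t := ⟨t.1.1, t.1.2.1.1, t.1.2.1.2, t.2.1, t.1.2.2.2.1, t.2.2.1, t.1.2.2.2.2,
    t.1.2.2.1.1, t.1.2.2.1.2, t.2.2.2⟩
  left_inv _ := rfl
  right_inv _ := rfl

/-- the edges Q - T -/
def eqa (I : LabelCover A B) (d k n : ℕ) : Data I d k n ≃
    ((Fin k → I.E) × Xs A d k × (Fin k × (A → ZMod 2) × (A → ZMod 2)) ×
      ((Fin d → ZMod 2) × (Fin d → ZMod 2))) ×
      (((Fin k × A → ZMod 2) × ZMod 2 × ZMod 2) × (Fin k → Fin n) × Ys A B d k ×
        (Fin (d + 1) → Fin k → ZMod 2)) where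
  toFun t := ((t.e, fun i => t.g i.succ, (t.j, t.α, t.β), (fun i => t.ε i.succ,
    fun i => t.ε' i.succ)), ((t.g 0, t.ε 0, t.ε' 0), t.b, t.y, t.δ))
  invFun t := ⟨t.1.1, t.2.2.1, t.2.2.2.1, Fin.cons t.2.1.1 t.1.2.1,
    Fin.cons t.2.1.2.1 t.1.2.2.2.1, Fin.cons t.2.1.2.2 t.1.2.2.2.2, t.2.2.2.2,
    t.1.2.2.1.1, t.1.2.2.1.2.1, t.1.2.2.1.2.2⟩
  left_inv t := by
    obtain ⟨e, b, y, g, ε, ε', δ, j, α, β⟩ := t
    have h1 : (Fin.cons (g 0) fun i => g i.succ : Fin (d + 1) → Fin k × A → ZMod 2) = g :=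
      Fin.cons_self_tail g
    have h2 : (Fin.cons (ε 0) fun i => ε i.succ : Fin (d + 1) → ZMod 2) = ε :=
      Fin.cons_self_tail ε
    have h3 : (Fin.cons (ε' 0) fun i => ε' i.succ : Fin (d + 1) → ZMod 2) = ε' :=
      Fin.cons_self_tail ε'
    simp only [h1, h2, h3]
  right_inv t := by
    obtain ⟨⟨e, g, ⟨j, α, β⟩, ε, ε'⟩, ⟨g0, ε0, ε'0⟩, b, y, δ⟩ := t
    simp only [Fin.cons_succ, Fin.cons_zero]

end VALUE2

open VALUE2 in
set_option synthInstance.maxSize 1000 in
theorem value_le : VALUE2 := by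
  intro A B _ _ _ _ I d k n _ _ v hv
  unfold Game.value
  have : Nonempty (((game I d k n).U → Fin (2 ^ (d + 2))) ×
      ((game I d k n).V → Fin (2 ^ (d + 2)))) := ⟨(fun _ => 0, fun _ => 0)⟩
  refine ciSup_le fun L => ?_
  set LU : VL I d k → (Fin (d + 1) → ZMod 2) × ZMod 2 := fun x => lab d (L.1 x) with hLU
  set LV : VR I d k → (Fin (d + 1) → ZMod 2) × ZMod 2 := fun x => lab d (L.2 x) with hLV
  have h1 := hv LU LV
  set p1e : (Fin k → I.E) → ℝ := fun e => p1 (strat I LU LV fun i => I.src (e i)) with hp1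
  set p2e : (Fin k → I.E) → ℝ := fun e =>
    p2 (fun ω : (Fin k → Fin n) × (Fin (d + 1) → Fin k × (A ⊕ B) → ZMod 2) =>
      pull I e ω.1 ω.2) (fun ω => (LV (Sum.inl (side I e ω.1, mask (side I e ω.1) ω.2))).1)
      (strat I LU LV fun i => I.src (e i)) with hp2
  set pae : (Fin k → I.E) → ℝ := fun e => pa (strat I LU LV fun i => I.src (e i)).toStr with hpa
  have h2 : (avg fun e => 17 * (1 - p1e e) + 5 * (1 - p2e e) + 10 * (1 - pae e)) =
      32 - (17 * avg p1e + 5 * avg p2e + 10 * avg pae) := by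
    have : (fun e => 17 * (1 - p1e e) + 5 * (1 - p2e e) + 10 * (1 - pae e)) =
        fun e => 32 - ((17 * p1e e + 5 * p2e e) + 10 * pae e) := by
      funext e; ring
    rw [this, avg_sub, avg_const, avg_add, avg_add, avg_mul_left, avg_mul_left, avg_mul_left]
  have h3 : 32 * (1 - v) ≤ 32 - (17 * avg p1e + 5 * avg p2e + 10 * avg pae) := h2 ▸ h1
  -- the fraction of the satisfied edges
  set Q : Fin 32 × Data I d k n → Prop := fun p =>
    mapE I p.1 p.2 (LU (endL I p.1 p.2)) = LV (endR I p.1 p.2) with hQ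
  have h4 : (Nat.card ((game I d k n).satisfied L.1 L.2) : ℝ) / (Nat.card (game I d k n).E : ℝ) =
      pr Q := by
    rw [← pr_eq_natCard]
    have : Nat.card ((game I d k n).satisfied L.1 L.2) = Nat.card {x // Q x} := by
      refine Nat.card_congr (Equiv.subtypeEquivRight fun p => ?_)
      exact Equiv.symm_apply_eq (lab d)
    rw [this]
    rfl
  rw [h4]
  have h5 : pr Q = (∑ m : Fin 32, pr fun t => Q (m, t)) / 32 := by
    unfold pr
    rw [avg_prod]
    unfold avg
    rw [Fintype.card_fin]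
    norm_num
  have hr : ∀ m : Fin 32, (m : ℕ) < 17 → (pr fun t => Q (m, t)) ≤ avg p1e := by
    intro m hm
    have h6 : avg p1e = pr fun t : Data I d k n =>
        Sat1 (strat I LU LV fun i => I.src (t.e i)) t.j t.α t.g fun i => t.ε i.succ := by
      rw [hp1]
      unfold p1 pr
      rw [← avg_prod (fun w : (Fin k → I.E) × Xs A (d + 1) k × (Fin k × (A → ZMod 2)) ×
        (Fin d → ZMod 2) =>
        ind (Sat1 (strat I LU LV fun i => I.src (w.1 i)) w.2.2.1.1 w.2.2.1.2 w.2.1 w.2.2.2))]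
      exact (avg_of_equiv (eq1 I d k n) _).symm
    rw [h6]
    refine pr_mono fun t ht => ?_
    have h7 : mapE I m t (LU (endL I m t)) = LV (endR I m t) := ht
    unfold mapE endL endR at h7
    simp only [if_pos hm] at h7
    have h8 := congrArg Prod.fst h7
    dsimp only at h8
    refine ⟨?_, ?_⟩
    · funext i
      have h9 := congrFun h8 i.succ
      rw [Fin.cons_succ] at h9
      exact h9.symm
    · have h9 := congrFun h8 0
      rw [Fin.cons_zero] at h9
      exact h9.symm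
  have hg : ∀ m : Fin 32, ¬ (m : ℕ) < 17 → (m : ℕ) < 22 → (pr fun t => Q (m, t)) ≤ avg p2e := by
    intro m hm0 hm
    have h6 : avg p2e = pr fun t : Data I d k n =>
        lz ((strat I LU LV fun i => I.src (t.e i)).f t.j t.α
          (shift (pull I t.e t.b t.y) (loc t.j t.α) t.ε t.δ))
      ((strat I LU LV fun i => I.src (t.e i)).p t.j t.α
          (shift (pull I t.e t.b t.y) (loc t.j t.α) t.ε t.δ))
        t.ε (par t.δ) = (LV (Sum.inl (side I t.e t.b, mask (side I t.e t.b) t.y))).1 := by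
      rw [hp2]
      unfold p2 pr
      rw [← avg_prod (fun w : (Fin k → I.E) × ((Fin k → Fin n) × Ys A B d k) ×
        (Fin k × (A → ZMod 2)) × (Fin (d + 1) → ZMod 2) × (Fin (d + 1) → Fin k → ZMod 2) =>
        ind (lz ((strat I LU LV fun i => I.src (w.1 i)).f w.2.2.1.1 w.2.2.1.2
          (shift (pull I w.1 w.2.1.1 w.2.1.2) (loc w.2.2.1.1 w.2.2.1.2) w.2.2.2.1 w.2.2.2.2))
          ((strat I LU LV fun i => I.src (w.1 i)).p w.2.2.1.1 w.2.2.1.2
          (shift (pull I w.1 w.2.1.1 w.2.1.2) (loc w.2.2.1.1 w.2.2.1.2) w.2.2.2.1 w.2.2.2.2))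
          w.2.2.2.1 (par w.2.2.2.2) =
          (LV (Sum.inl (side I w.1 w.2.1.1, mask (side I w.1 w.2.1.1) w.2.1.2))).1))]
      exact (avg_of_equiv (eq2 I d k n) _).symm
    rw [h6]
    refine pr_mono fun t ht => ?_
    have h7 : mapE I m t (LU (endL I m t)) = LV (endR I m t) := ht
    unfold mapE endL endR at h7
    simp only [if_neg hm0, if_pos hm] at h7
    exact congrArg Prod.fst h7
  have ha : ∀ m : Fin 32, ¬ (m : ℕ) < 22 → (pr fun t => Q (m, t)) ≤ avg pae := by
    intro m hm0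
    have h6 : avg pae = pr fun t : Data I d k n =>
        (fun i => (strat I LU LV fun i => I.src (t.e i)).F t.j t.α t.β (fun i => t.g i.succ) i +
          t.ε i.succ * (strat I LU LV fun i => I.src (t.e i)).r t.j t.α t.β
            (fun i => t.g i.succ) +
          t.ε' i.succ * ((strat I LU LV fun i => I.src (t.e i)).q t.j t.α t.β
            (fun i => t.g i.succ) *
            (strat I LU LV fun i => I.src (t.e i)).r t.j t.α t.β (fun i => t.g i.succ))) =
          (strat I LU LV fun i => I.src (t.e i)).f' t.j t.α (shift2 (fun i => t.g i.succ)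
            t.j t.α t.β (fun i => t.ε i.succ) fun i => t.ε' i.succ) ∧
        (strat I LU LV fun i => I.src (t.e i)).q t.j t.α t.β (fun i => t.g i.succ) =
          (strat I LU LV fun i => I.src (t.e i)).p' t.j t.α (shift2 (fun i => t.g i.succ)
            t.j t.α t.β (fun i => t.ε i.succ) fun i => t.ε' i.succ) := by
      rw [hpa]
      unfold pa pr
      rw [← avg_prod (fun w : (Fin k → I.E) × Xs A d k ×
        (Fin k × (A → ZMod 2) × (A → ZMod 2)) × ((Fin d → ZMod 2) × (Fin d → ZMod 2)) =>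
        ind ((fun i => (strat I LU LV fun i => I.src (w.1 i)).toStr.F w.2.2.1.1 w.2.2.1.2.1
            w.2.2.1.2.2 w.2.1 i +
          w.2.2.2.1 i * (strat I LU LV fun i => I.src (w.1 i)).toStr.r w.2.2.1.1 w.2.2.1.2.1
            w.2.2.1.2.2 w.2.1 +
          w.2.2.2.2 i * ((strat I LU LV fun i => I.src (w.1 i)).toStr.q w.2.2.1.1 w.2.2.1.2.1
            w.2.2.1.2.2 w.2.1 *
            (strat I LU LV fun i => I.src (w.1 i)).toStr.r w.2.2.1.1 w.2.2.1.2.1
            w.2.2.1.2.2 w.2.1)) =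
          (strat I LU LV fun i => I.src (w.1 i)).toStr.f' w.2.2.1.1 w.2.2.1.2.1
            (shift2 w.2.1 w.2.2.1.1 w.2.2.1.2.1 w.2.2.1.2.2 w.2.2.2.1 w.2.2.2.2) ∧
        (strat I LU LV fun i => I.src (w.1 i)).toStr.q w.2.2.1.1 w.2.2.1.2.1 w.2.2.1.2.2
            w.2.1 =
          (strat I LU LV fun i => I.src (w.1 i)).toStr.p' w.2.2.1.1 w.2.2.1.2.1
            (shift2 w.2.1 w.2.2.1.1 w.2.2.1.2.1 w.2.2.1.2.2 w.2.2.2.1 w.2.2.2.2)))]
      exact (avg_of_equiv (eqa I d k n) _).symm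
    rw [h6]
    refine pr_mono fun t ht => ?_
    have h7 : mapE I m t (LU (endL I m t)) = LV (endR I m t) := ht
    unfold mapE endL endR at h7
    simp only [if_neg hm0, if_neg (show ¬ (m : ℕ) < 17 by omega)] at h7
    have h8 := congrArg Prod.fst h7
    dsimp only at h8
    refine ⟨?_, ?_⟩
    · funext i
      have h9 := congrFun h8 i.succ
      rw [Fin.cons_succ] at h9
      exact h9
    · have h9 := congrFun h8 0
      rw [Fin.cons_zero] at h9
      exact h9
  have h6 : (∑ m : Fin 32, pr fun t => Q (m, t)) ≤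
      17 * avg p1e + 5 * avg p2e + 10 * avg pae := by
    rw [← sum_three]
    refine sum_le_sum fun m _ => ?_
    unfold three
    split_ifs with h7 h8
    · exact hr m h7
    · exact hg m h7 h8
    · exact ha m h8
  rw [h5, div_le_iff₀ (by norm_num)]
  linarith

end Pool.Agent.MP_ec946a.SF
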