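import Mathlib
import Pool.Agent.Lib.SE.Count
import Pool.Agent.Lib.SE.Coef
import Pool.Agent.Lib.SE.Law
import Pool.Agent.Lib.SE.Second
import Pool.Agent.Lib.SE.Fourth
import Pool.Agent.Lib.SE.Ind
import Pool.Agent.Lib.SE.RowA
import Pool.Agent.Lib.SE.Cove
import Pool.Agent.Lib.SE.Covu
import Pool.Agent.Lib.SE.Rprob
import Pool.Agent.Lib.SE.Var
import Pool.Agent.Lib.SE.Label
import Pool.Agent.Lib.SE.Kap
import Pool.Agent.Lib.SE.Outer
import Pool.Agent.Lib.SF.Bsq
import Pool.Agent.Lib.SF.Subl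
import Pool.Agent.Lib.SF.Rt1
import Pool.Agent.Lib.SF.Rtj
import Pool.Agent.Lib.SF.RowRG
import Pool.Agent.Lib.SF.Lt
import Pool.Agent.Lib.SF.Inner
import Pool.Agent.Lib.SF.Value
import Pool.Agent.Lib.SF.Compl
import Pool.Agent.Lib.SF.Carde
import Pool.Agent.Lib.SF.Final

/-!
# The reduction with value `17/20`: all rows together
-/

set_option autoImplicit false

namespace Pool.Agent.MP_ec946a.SF

open Pool.Agent.MP_ec946a.SE

theorem main : MAIN2 :=
  main2
    (inner2 (rtj (rt1 (subl (SE.fourth SE.indep SE.dep SE.quad)) (bsq SE.second))) rowRG rowP rowL0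
      (ltcard (SE.count SE.coef)) (SE.rowLL SE.law (SE.count SE.coef)) SE.rowA)
    (SE.covu SE.cove) (SE.mmcard (SE.count SE.coef))
    (SE.outer (SE.rprob SE.rst_eq) SE.var SE.label SE.kap_le SE.fib) SE.fib value_le compl carde

end Pool.Agent.MP_ec946a.SF
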