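import Mathlib
import Pool.Agent.Lib.SF.All

/-!
# The reduction, as used in the statement of the hand-in

The same game as in `SF/Defs.lean`, with the map of an edge split into its three kinds and the
finiteness instances replaced by `Fintype.ofFinite`.
-/

set_option autoImplicit false

namespace Pool.Agent.MP_ec946a.SF.Stat

open Pool.Agent.MP_ec946a.LR Pool.Agent.MP_ec946a.SE

variable {A B : Type} {d k n : ℕ}

/-- The map `(f, p) ↦ (p, f (i + 1) + ε (i + 1) f 0; 0)` of the edges from `R` to `T`. -/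
def mapT (ε : Fin (d + 1) → ZMod 2) (l : (Fin (d + 1) → ZMod 2) × ZMod 2) :
    (Fin (d + 1) → ZMod 2) × ZMod 2 :=
  (Fin.cons l.2 (drl (fun i => ε i.succ) l.1), 0)

/-- The map `(f, p) ↦ (f i + ε i p + ∑ j, δ i j; 0)` of the edges from `R` to `G`. -/
def mapG (ε : Fin (d + 1) → ZMod 2) (δ : Fin (d + 1) → Fin k → ZMod 2)
    (l : (Fin (d + 1) → ZMod 2) × ZMod 2) : (Fin (d + 1) → ZMod 2) × ZMod 2 :=
  (fun i => l.1 i + ε i * l.2 + par δ i, 0)

/-- The map `(f, p) ↦ (p, f (i + 1) + ε (i + 1) f 0 + ε' (i + 1) p f 0; 0)` of the edges from `Q`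
to `T`. -/
def mapQ (ε ε' : Fin (d + 1) → ZMod 2) (l : (Fin (d + 1) → ZMod 2) × ZMod 2) :
    (Fin (d + 1) → ZMod 2) × ZMod 2 :=
  (Fin.cons l.2 fun i => l.1 i.succ + ε i.succ * l.1 0 + ε' i.succ * (l.2 * l.1 0), 0)

/-- The map of the edge with number `m < 32` and data `t`, for labels written as `(f, p)`. -/
def mapE (I : LabelCover A B) (m : Fin 32) (t : Data I d k n)
    (l : (Fin (d + 1) → ZMod 2) × ZMod 2) : (Fin (d + 1) → ZMod 2) × ZMod 2 :=
  if (m : ℕ) < 17 then mapT t.ε l
  else if (m : ℕ) < 22 then mapG t.ε t.δ l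
  else mapQ t.ε t.ε' l

theorem finite_VL [Finite A] (I : LabelCover A B) : Finite (VL I d k) := inferInstance

theorem finite_VR [Finite A] [Finite B] (I : LabelCover A B) : Finite (VR I d k) := inferInstance

theorem finite_E [Finite A] [Finite B] (I : LabelCover A B) : Finite (Fin 32 × Data I d k n) :=
  have : Finite (Data I d k n) := Finite.of_equiv _ (dataEquiv I d k n).symm
  inferInstance

theorem nonempty_E (I : LabelCover A B) [NeZero k] [NeZero n] :
    Nonempty (Fin 32 × Data I d k n) :=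
  ⟨0, ⟨fun _ => Classical.arbitrary _, fun _ => 0, 0, 0, 0, 0, 0, 0, 0, 0⟩⟩

theorem fibre (I : LabelCover A B) (m : Fin 32) (t : Data I d k n) (b : Fin (2 ^ (d + 2))) :
    Nat.card {a // (lab d).symm (mapE I m t (lab d a)) = b} =
      if (lab d b).2 = 0 then 2 else 0 :=
  lab_fibre I m t b

theorem two_to_one (I : LabelCover A B) (m : Fin 32) (t : Data I d k n)
    (b : Fin (2 ^ (d + 2))) : Nat.card {a // (lab d).symm (mapE I m t (lab d a)) = b} ≤ 2 := by
  rw [fibre]
  split_ifs <;> norm_num

/-- The game: the left vertices are `R` and `Q`, the right vertices are `G` and `T`; an edge is a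
number `m < 32` (from `R` to `T` for `m < 17`, from `R` to `G` for `17 ≤ m < 22`, from `Q` to `T`
for `22 ≤ m`) with its data.  The labels are coded by `lab`. -/
noncomputable def game [Finite A] [Finite B] (I : LabelCover A B)
    (d k n : ℕ) [NeZero k] [NeZero n] : Game (2 ^ (d + 2)) where
  U := VL I d k
  V := VR I d k
  E := Fin 32 × Data I d k n
  finU := @Fintype.ofFinite _ (finite_VL I)
  finV := @Fintype.ofFinite _ (finite_VR I)
  finE := @Fintype.ofFinite _ (finite_E I)
  neE := nonempty_E I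
  src p := endL I p.1 p.2
  tgt p := endR I p.1 p.2
  proj p l := (lab d).symm (mapE I p.1 p.2 (lab d l))
  two_to_one p b := two_to_one I p.1 p.2 b

/-- The reduction: `d = 126`, so that there are `2 ^ 128` labels. -/
noncomputable def red [Finite A] [Finite B] (I : LabelCover A B) : Game (2 ^ 128) :=
  game I 126 (2 ^ (617 + 127 * Nat.card A)) (2 ^ (351 + 127 * Nat.card A))

theorem value_game [Fintype A] [Fintype B] [DecidableEq A] [DecidableEq B] (I : LabelCover A B)
    (d k n : ℕ) [NeZero k] [NeZero n] : (game I d k n).value = (SF.game I d k n).value := rfl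

theorem red_eq [Fintype A] [Fintype B] [DecidableEq A] [DecidableEq B] (I : LabelCover A B)
    (a b : ℕ) (h : a = b) :
    (game I 126 (2 ^ (617 + 127 * a)) (2 ^ (351 + 127 * a))).value =
      (SF.game I 126 (2 ^ (617 + 127 * b)) (2 ^ (351 + 127 * b))).value ∧
    Nat.card (game I 126 (2 ^ (617 + 127 * a)) (2 ^ (351 + 127 * a))).E =
      Nat.card (SF.game I 126 (2 ^ (617 + 127 * b)) (2 ^ (351 + 127 * b))).E := by
  subst h
  exact ⟨rfl, rfl⟩

theorem value_red [Fintype A] [Fintype B] [DecidableEq A] [DecidableEq B] (I : LabelCover A B) :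
    (red I).value = (SF.red I).value :=
  (red_eq I _ _ (Nat.card_eq_fintype_card (α := A))).1

theorem card_red [Fintype A] [Fintype B] [DecidableEq A] [DecidableEq B] (I : LabelCover A B) :
    Nat.card (red I).E = Nat.card (SF.red I).E :=
  (red_eq I _ _ (Nat.card_eq_fintype_card (α := A))).2

theorem main (A B : Type) [Finite A] [Finite B] [Nonempty A] : ∃ k C : ℕ, ∀ I : LabelCover A B,
    (∀ e b, Nat.card {a // (red I).proj e a = b} = 0 ∨ Nat.card {a // (red I).proj e a = b} = 2) ∧
    Nat.card (red I).E = C * Nat.card I.E ^ k ∧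
    (I.value = 1 → (red I).value = 1) ∧ (I.value ≤ 1 / 2 ^ 230 → (red I).value ≤ 17 / 20) := by
  classical
  have := Fintype.ofFinite A
  have := Fintype.ofFinite B
  obtain ⟨k, C, h⟩ := SF.main A B
  refine ⟨k, C, fun I => ⟨fun e b => ?_, ?_, ?_, ?_⟩⟩
  · change Nat.card {a // (lab 126).symm (mapE I e.1 e.2 (lab 126 a)) = b} = 0 ∨
      Nat.card {a // (lab 126).symm (mapE I e.1 e.2 (lab 126 a)) = b} = 2
    rw [fibre]
    split_ifs
    · right; rfl
    · left; rfl
  · rw [card_red]; exact (h I).2.1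
  · rw [value_red]; exact (h I).2.2.1
  · rw [value_red]; exact (h I).2.2.2

end Pool.Agent.MP_ec946a.SF.Stat
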