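import Mathlib
import Pool.Agent.Lib.SE.LemL
import Pool.Agent.Lib.SE.Sup
import Pool.Agent.Lib.SF.Props

/-!
# Row SUBL: Lemma L for a law with small masses
-/

set_option autoImplicit false
set_option linter.unusedSectionVars false

namespace Pool.Agent.MP_ec946a.SF

open Finset Pool.Agent.MP_ec946a.SE

namespace SUBL

section

variable {S : Type} [Fintype S] [DecidableEq S] {d : ℕ}

lemma step2 {μ : (Fin d → S → ZMod 2) → (Fin d → ZMod 2) → ℝ} (h0 : ∀ z s, 0 ≤ μ z s)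
    (h1 : ∀ z, ∑ s, μ z s ≤ 1) (W : (Fin d → S → ZMod 2) → (Fin d → ZMod 2) → ℝ) :
    (avg fun z => ∑ s, μ z s * W z s) ≤ √(√(avg fun z => ∑ s, W z s ^ 4)) := by
  have hle : ∀ z s, μ z s ≤ 1 := by
    intro z s
    exact (single_le_sum (f := fun s => μ z s) (fun s _ => h0 z s) (mem_univ s)).trans (h1 z)
  -- weighted Cauchy-Schwarz
  have hcs : ∀ (z : Fin d → S → ZMod 2) (g : (Fin d → ZMod 2) → ℝ),
      (∑ s, μ z s * g s) ^ 2 ≤ ∑ s, μ z s * g s ^ 2 := by
    intro z g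
    have h := sum_mul_sq_le_sq_mul_sq (univ : Finset (Fin d → ZMod 2)) (fun s => √(μ z s))
      (fun s => √(μ z s) * g s)
    have e1 : ∀ s, √(μ z s) * (√(μ z s) * g s) = μ z s * g s := by
      intro s
      rw [← mul_assoc, Real.mul_self_sqrt (h0 z s)]
    have e2 : ∀ s, √(μ z s) ^ 2 = μ z s := fun s => Real.sq_sqrt (h0 z s)
    have e3 : ∀ s, (√(μ z s) * g s) ^ 2 = μ z s * g s ^ 2 := by
      intro s
      rw [mul_pow, e2]
    simp only [e1, e2, e3] at h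
    refine h.trans ?_
    have h5 : 0 ≤ ∑ s, μ z s * g s ^ 2 :=
      sum_nonneg fun s _ => mul_nonneg (h0 z s) (sq_nonneg _)
    calc (∑ s, μ z s) * ∑ s, μ z s * g s ^ 2 ≤ 1 * ∑ s, μ z s * g s ^ 2 :=
          mul_le_mul_of_nonneg_right (h1 z) h5
      _ = _ := one_mul _
  have h2 : (avg fun z => ∑ s, μ z s * W z s) ^ 2 ≤ avg fun z => ∑ s, μ z s * W z s ^ 2 :=
    (avg_sq_le _).trans (avg_mono fun z => hcs z _)
  have h3 : (avg fun z => ∑ s, μ z s * W z s ^ 2) ^ 2 ≤ avg fun z => ∑ s, W z s ^ 4 := by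
    refine (avg_sq_le _).trans (avg_mono fun z => (hcs z _).trans ?_)
    refine sum_le_sum fun s _ => ?_
    have e : (W z s ^ 2) ^ 2 = W z s ^ 4 := by ring
    rw [e]
    calc μ z s * W z s ^ 4 ≤ 1 * W z s ^ 4 :=
          mul_le_mul_of_nonneg_right (hle z s) (by positivity)
      _ = _ := one_mul _
  exact Real.le_sqrt_of_sq_le (h2.trans (Real.le_sqrt_of_sq_le h3))

lemma abs_Fc_le {μ : (Fin d → S → ZMod 2) → (Fin d → ZMod 2) → ℝ} (h0 : ∀ z s, 0 ≤ μ z s)
    (h1 : ∀ z, ∑ s, μ z s ≤ 1) (c : Fin d → ZMod 2) (z : Fin d → S → ZMod 2) :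
    |Fc μ c z| ≤ 1 := by
  unfold Fc
  refine (abs_sum_le_sum_abs _ _).trans (le_trans ?_ (h1 z))
  refine sum_le_sum fun s _ => ?_
  rw [abs_mul, abs_sg, mul_one, abs_of_nonneg (h0 z s)]

/-- the conditional expectation -/
lemma abs_Phi_le {μ : (Fin d → S → ZMod 2) → (Fin d → ZMod 2) → ℝ} (h0 : ∀ z s, 0 ≤ μ z s)
    (h1 : ∀ z, ∑ s, μ z s ≤ 1) {c : Fin d → ZMod 2} (hc : c ≠ 0) (y : S → ZMod 2) :
    |∑ h, ac μ c h * sg (dt h y)| ≤ 1 := by
  have h2 : (∑ h, ac μ c h * sg (dt h y)) =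
      avg fun z => Fc μ c z * ((2 : ℝ) ^ Fintype.card S * ind (cz c z = y)) := by
    have h3 : ∀ h : S → ZMod 2, ac μ c h * sg (dt h y) =
        avg fun z => Fc μ c z * sg (dt h (cz c z + y)) := by
      intro h
      unfold ac
      rw [← avg_mul_right]
      congr 1
      funext z
      rw [dt_add_right, sg_add, dt_ev]
      ring
    simp only [h3]
    rw [← avg_finset_sum]
    congr 1
    funext z
    rw [SE.SUP.ind_eq, mul_sum]
  rw [h2]
  refine (abs_avg_le _).trans ?_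
  rw [← SE.SUP.avg_ind_cz hc y]
  refine avg_mono fun z => ?_
  have h4 : 0 ≤ (2 : ℝ) ^ Fintype.card S * ind (cz c z = y) :=
    mul_nonneg (by positivity) (ind_nonneg _)
  rw [abs_mul, abs_of_nonneg h4]
  calc |Fc μ c z| * _ ≤ 1 * _ := mul_le_mul_of_nonneg_right (abs_Fc_le h0 h1 c z) h4
    _ = _ := one_mul _

/-- inversion -/
lemma inv (f : (S → ZMod 2) → ℝ) (s : S → ZMod 2) :
    (avg fun c : S → ZMod 2 => (∑ r, f r * sg (dt r c)) * sg (dt s c)) = f s := by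
  have h1 : ∀ c : S → ZMod 2, (∑ r, f r * sg (dt r c)) * sg (dt s c) =
      ∑ r, f r * sg (dt (r + s) c) := by
    intro c
    rw [sum_mul]
    refine sum_congr rfl fun r _ => ?_
    rw [dt_add_left, sg_add]
    ring
  simp only [h1]
  rw [avg_finset_sum, sum_eq_single s]
  · rw [avg_mul_left, avg_sg_dt, if_pos (v2_self s), mul_one]
  · intro r _ hr
    rw [avg_mul_left, avg_sg_dt, if_neg, mul_zero]
    rwa [SE.LEML.add_eq_zero_iff']
  · intro h
    exact absurd (mem_univ s) h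

/-- Parseval -/
lemma pars (f : (S → ZMod 2) → ℝ) :
    (avg fun c : S → ZMod 2 => (∑ r, f r * sg (dt r c)) ^ 2) = ∑ s, f s ^ 2 := by
  have h1 : ∀ c : S → ZMod 2, (∑ r, f r * sg (dt r c)) ^ 2 =
      ∑ s, f s * ((∑ r, f r * sg (dt r c)) * sg (dt s c)) := by
    intro c
    rw [sq]
    conv_lhs => rw [mul_sum]
    exact sum_congr rfl fun s _ => by ring
  simp only [h1]
  rw [avg_finset_sum]
  refine sum_congr rfl fun s _ => ?_
  rw [avg_mul_left, inv, sq]

lemma ac_sq_le {μ : (Fin d → S → ZMod 2) → (Fin d → ZMod 2) → ℝ} (h0 : ∀ z s, 0 ≤ μ z s)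
    (h1 : ∀ z, ∑ s, μ z s ≤ 1) {c : Fin d → ZMod 2} (hc : c ≠ 0) :
    ∑ h, ac μ c h ^ 2 ≤ 1 := by
  rw [← pars]
  refine avg_le_const zero_le_one fun y => ?_
  rw [← sq_abs]
  exact pow_le_one₀ (abs_nonneg _) (abs_Phi_le h0 h1 hc y)

lemma sum_ms (μ : (Fin d → S → ZMod 2) → (Fin d → ZMod 2) → ℝ) (c : Fin d → ZMod 2)
    (h : S → ZMod 2) : ∑ τ, ms μ (h, τ) * sg (dt c τ) = ac μ c h := by
  unfold ms ac Fc
  simp only [← avg_mul_right]
  rw [← avg_finset_sum]
  congr 1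
  funext z
  rw [sum_mul, ← Equiv.sum_comp (Equiv.addLeft (ev h z)) fun s => μ z s * sg (dt c s) *
    sg (dt c (ev h z))]
  refine sum_congr rfl fun τ _ => ?_
  rw [Equiv.coe_addLeft, dt_add_right, sg_add]
  have h1 := sg_mul_self (dt c (ev h z))
  show μ z (ev h z + τ) * sg (dt c τ) = _
  linear_combination (-(μ z (ev h z + τ) * sg (dt c τ))) * h1

end

end SUBL

open SE.LEML SUBL in
theorem subl (h : FOURTH) : SUBL := by
  intro S _ _ d μ h0 h1 t ht hms
  have h2d : (0 : ℝ) < 2 ^ d := by positivity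
  have hcard : (Fintype.card (Fin d → ZMod 2) : ℝ) = 2 ^ d := by
    rw [Fintype.card_fun, ZMod.card, Fintype.card_fin]
    push_cast
    rfl
  obtain ⟨ν, hν⟩ : ∃ ν : ℝ, ν = avg fun z => ∑ s, μ z s := ⟨_, rfl⟩
  have hν0 : 0 ≤ ν := by
    rw [hν]
    exact avg_nonneg fun z => sum_nonneg fun s _ => h0 z s
  have hν1 : ν ≤ 1 := by
    rw [hν]
    exact avg_le_const zero_le_one h1
  have hms0 : ∀ q, 0 ≤ ms μ q := fun q => avg_nonneg fun z => h0 z _
  let w : (S → ZMod 2) → (Fin d → ZMod 2) → ℝ := fun g τ => ms μ (g, τ) - ν / 2 ^ d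
  -- the transform of the weights
  have hsg : ∀ c : Fin d → ZMod 2, c ≠ 0 → ∑ τ, sg (dt c τ) = 0 := by
    intro c hc
    have h3 := sum_sg_dt c
    rw [if_neg hc] at h3
    rw [← h3]
    exact sum_congr rfl fun τ _ => by rw [dt_comm]
  have hac0 : ∀ g, ac μ 0 g = ν := by
    intro g
    unfold ac Fc
    rw [hν]
    congr 1
    funext z
    simp only [dt_zero_left, sg_zero, mul_one]
  have haw : ∀ c g, aw w c g = if c = 0 then 0 else ac μ c g := by
    intro c g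
    have h3 : aw w c g = ac μ c g - ν / 2 ^ d * ∑ τ, sg (dt c τ) := by
      rw [← sum_ms, mul_sum, ← sum_sub_distrib]
      unfold aw tr
      refine sum_congr rfl fun τ _ => ?_
      show (ms μ (g, τ) - ν / 2 ^ d) * _ = _
      ring
    rw [h3]
    split_ifs with hc
    · subst hc
      simp only [dt_zero_left, sg_zero]
      rw [hac0, sum_const, card_univ, nsmul_eq_mul, mul_one, hcard]
      field_simp
      ring
    · rw [hsg c hc]
      ring
  have hsum0 : ∀ g, ∑ τ, w g τ = 0 := by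
    intro g
    have h3 := haw 0 g
    rw [if_pos rfl] at h3
    rw [← h3]
    unfold aw tr
    simp only [dt_zero_left, sg_zero, mul_one]
  have hPhi : ∀ c y, |PhiF (aw w) c y| ≤ 1 := by
    intro c y
    unfold PhiF
    simp only [haw]
    by_cases hc : c = 0
    · simp only [if_pos hc, zero_mul, sum_const_zero, abs_zero]
      exact zero_le_one
    · simp only [if_neg hc]
      exact abs_Phi_le h0 h1 hc y
  -- the sum of the squares
  obtain ⟨X, hX⟩ : ∃ X : ℝ, X = (∑ c ∈ univ.erase 0, ∑ g, ac μ c g ^ 2) / 2 ^ d := ⟨_, rfl⟩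
  have hX1 : X ≤ 1 := by
    rw [hX, div_le_one h2d]
    calc ∑ c ∈ univ.erase (0 : Fin d → ZMod 2), ∑ g, ac μ c g ^ 2
        ≤ ∑ c ∈ univ.erase (0 : Fin d → ZMod 2), (1 : ℝ) :=
          sum_le_sum fun c hc => ac_sq_le h0 h1 (ne_of_mem_erase hc)
      _ ≤ ∑ c : Fin d → ZMod 2, (1 : ℝ) :=
          sum_le_sum_of_subset_of_nonneg (erase_subset _ _) fun _ _ _ => zero_le_one
      _ = 2 ^ d := by
          rw [sum_const, card_univ, nsmul_eq_mul, mul_one, hcard]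
  have hwX : ∑ g, ∑ τ, w g τ ^ 2 = X := by
    have h3 : ∀ g, ∑ τ, w g τ ^ 2 = (∑ c ∈ univ.erase 0, ac μ c g ^ 2) / 2 ^ d := by
      intro g
      rw [← pars]
      unfold avg
      rw [hcard]
      congr 1
      rw [← sum_erase univ (a := (0 : Fin d → ZMod 2))]
      · refine sum_congr rfl fun c hc => ?_
        have h4 := haw c g
        rw [if_neg (ne_of_mem_erase hc)] at h4
        rw [← h4]
        unfold aw tr
        congr 1
        exact sum_congr rfl fun τ _ => by rw [dt_comm]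
      · have h4 := haw 0 g
        rw [if_pos rfl] at h4
        unfold aw tr at h4
        have h5 : ∑ r, w g r * sg (dt r 0) = 0 := by
          rw [← h4]
          exact sum_congr rfl fun τ _ => by rw [dt_comm]
        rw [h5]
        ring
    simp only [h3]
    rw [hX, ← sum_div, sum_comm]
  -- the sizes
  have hw4 : ∀ g τ, w g τ ^ 4 ≤ t ^ 2 * w g τ ^ 2 := by
    intro g τ
    have h5 : w g τ ^ 2 ≤ t ^ 2 := by
      have h6 : ν / 2 ^ d ≤ 1 / 2 ^ d := div_le_div_of_nonneg_right hν1 h2d.le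
      have h7 : 0 ≤ ν / 2 ^ d := div_nonneg hν0 h2d.le
      refine sq_le_sq' ?_ ?_
      · show -t ≤ ms μ (g, τ) - ν / 2 ^ d
        linarith [hms0 (g, τ)]
      · show ms μ (g, τ) - ν / 2 ^ d ≤ t
        linarith [hms (g, τ)]
    calc w g τ ^ 4 = w g τ ^ 2 * w g τ ^ 2 := by ring
      _ ≤ t ^ 2 * w g τ ^ 2 := mul_le_mul_of_nonneg_right h5 (sq_nonneg _)
  have hsum4 : ∑ g, ∑ τ, w g τ ^ 4 ≤ t ^ 2 := by
    calc ∑ g, ∑ τ, w g τ ^ 4 ≤ ∑ g, ∑ τ, t ^ 2 * w g τ ^ 2 :=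
          sum_le_sum fun g _ => sum_le_sum fun τ _ => hw4 g τ
      _ = t ^ 2 * X := by rw [← hwX]; simp only [mul_sum]
      _ ≤ t ^ 2 * 1 := mul_le_mul_of_nonneg_left hX1 (sq_nonneg _)
      _ = t ^ 2 := mul_one _
  -- the main estimate
  have hA := step34 h w (K := 1) zero_le_one hPhi
  have hB := SUBL.step2 h0 h1 (Wf w)
  rw [step1] at hB
  have hC : √(√(avg fun z => ∑ s, Wf w z s ^ 4)) ≤ √(√(t ^ 2 + 14 / 2 ^ d)) :=
    Real.sqrt_le_sqrt (Real.sqrt_le_sqrt (hA.trans (by linarith)))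
  have hD : ∑ g, ∑ τ, w g τ * ms μ (g, τ) = X := by
    rw [← hwX]
    refine sum_congr rfl fun g _ => ?_
    have h3 : ∀ τ, w g τ * ms μ (g, τ) = w g τ ^ 2 + ν / 2 ^ d * w g τ := by
      intro τ
      show (ms μ (g, τ) - ν / 2 ^ d) * ms μ (g, τ) = (ms μ (g, τ) - ν / 2 ^ d) ^ 2 +
        ν / 2 ^ d * (ms μ (g, τ) - ν / 2 ^ d)
      ring
    simp only [h3]
    rw [sum_add_distrib, ← mul_sum, hsum0, mul_zero, add_zero]
  rw [hD] at hB
  rw [← hX]
  exact hB.trans hC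

end Pool.Agent.MP_ec946a.SF
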